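import Pool.Agent.H11.EL.Targets

/-!
# MP_0b603e_al, module MO: the second moment bound for a map with bilinear defect
-/

set_option autoImplicit false

namespace Pool.Agent.H91.EL

open Pool.Agent.H11.EL

open scoped commutatorElement

private theorem sum_ind {X Y : Type} [Fintype X] [Fintype Y] [DecidableEq Y] (T : X → Y) :
    ∑ k : Y, ∑ m : X, (if T m = k then (1 : ℝ) else 0) = Fintype.card X := by
  rw [Finset.sum_comm]
  simp

private theorem sum_sq {X Y : Type} [Fintype X] [Fintype Y] [DecidableEq Y] (T : X → Y) :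
    ∑ k : Y, (∑ m : X, (if T m = k then (1 : ℝ) else 0)) ^ 2 =
      ∑ m : X, ∑ m' : X, (if T m' = T m then (1 : ℝ) else 0) := by
  have h1 : ∀ k : Y, (∑ m : X, (if T m = k then (1 : ℝ) else 0)) ^ 2 =
      ∑ m : X, ∑ m' : X, (if T m = k then (1 : ℝ) else 0) * (if T m' = k then (1 : ℝ) else 0) := by
    intro k
    rw [pow_two, Finset.sum_mul_sum]
  rw [Finset.sum_congr rfl fun k _ => h1 k, Finset.sum_comm]
  refine Finset.sum_congr rfl fun m _ => ?_
  rw [Finset.sum_comm]
  refine Finset.sum_congr rfl fun m' _ => ?_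
  rw [Finset.sum_eq_single (T m)]
  · simp
  · intro k _ hk
    rw [if_neg (fun h => hk h.symm), zero_mul]
  · intro h
    exact absurd (Finset.mem_univ _) h

/-- all fibres of a surjective homomorphism of finite groups have the same size -/
private theorem fiber_card {X D : Type} [Group X] [Group D] [Fintype X] [DecidableEq X]
    [DecidableEq D] (f : X →* D)
    (hf : Function.Surjective f) (d : D) :
    ((Finset.univ.filter fun m : X => f m = d).card : ℝ) * Nat.card D = Fintype.card X := by
  have h1 : (Finset.univ.filter fun m : X => f m = d).card = Nat.card f.ker := by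
    obtain ⟨a, ha⟩ := hf d
    rw [← Fintype.card_subtype, ← Nat.card_eq_fintype_card]
    refine Nat.card_congr
      { toFun := fun m => ⟨a⁻¹ * m.1, by
          rw [MonoidHom.mem_ker, map_mul, map_inv, ha, m.2, inv_mul_cancel]⟩
        invFun := fun m => ⟨a * m.1, by
          have := m.2
          rw [MonoidHom.mem_ker] at this
          rw [map_mul, ha, this, mul_one]⟩
        left_inv := fun m => by ext; simp
        right_inv := fun m => by ext; simp }
  have h2 : Nat.card f.ker * Nat.card D = Nat.card X := by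
    have h3 := f.ker.card_mul_index
    rw [Subgroup.index_ker, MonoidHom.range_eq_top.2 hf] at h3
    rwa [Nat.card_congr (Subgroup.topEquiv (G := D)).toEquiv] at h3
  rw [h1, ← Nat.card_eq_fintype_card (α := X), ← h2]
  push_cast
  ring

theorem pf_mo : T_MO := by
  classical
  intro X Y _ _ _ _ D W T B hD hT hB hBm hsur hW κ
  have : Fintype X := Fintype.ofFinite X
  have : Fintype Y := Fintype.ofFinite Y
  have : D.Normal := ⟨fun δ hδ g => by
    rw [← hD δ hδ g, mul_assoc, mul_inv_cancel, mul_one]; exact hδ⟩
  -- the homomorphism to the quotient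
  let φ : X →* Y ⧸ D := MonoidHom.mk' (fun m => (T m : Y ⧸ D)) (by
    intro m u
    rw [hT, QuotientGroup.mk_mul_of_mem _ (hB m u), QuotientGroup.mk_mul])
  have hφ : ∀ m, φ m = (T m : Y ⧸ D) := fun m => rfl
  have hφs : Function.Surjective φ := by
    intro q
    induction q using QuotientGroup.induction_on with
    | H y =>
      obtain ⟨m, δ, hδ, h⟩ := hsur y
      refine ⟨m, ?_⟩
      rw [hφ, ← h, QuotientGroup.mk_mul_of_mem _ hδ]
  have hker : ∀ u, u ∈ φ.ker ↔ T u ∈ D := by
    intro u
    rw [MonoidHom.mem_ker, hφ, QuotientGroup.eq_one_iff]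
  set x : ℝ := (Fintype.card X : ℝ) with hx
  set y : ℝ := (Fintype.card Y : ℝ) with hy
  have hx0 : 0 < x := by rw [hx]; exact_mod_cast Fintype.card_pos
  have hy0 : 0 < y := by rw [hy]; exact_mod_cast Fintype.card_pos
  have hd0 : (0 : ℝ) < Nat.card D := by exact_mod_cast Nat.card_pos
  have hyd : (Nat.card (Y ⧸ D) : ℝ) * Nat.card D = y := by
    rw [hy, ← Nat.card_eq_fintype_card]
    exact_mod_cast (Subgroup.card_eq_card_quotient_mul_card_subgroup D).symm
  have hkc : (Nat.card φ.ker : ℝ) = x * Nat.card D / y := by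
    have h1 : Nat.card φ.ker * Nat.card (Y ⧸ D) = Nat.card X := by
      have h3 := φ.ker.card_mul_index
      rw [Subgroup.index_ker, MonoidHom.range_eq_top.2 hφs] at h3
      rwa [Nat.card_congr (Subgroup.topEquiv (G := Y ⧸ D)).toEquiv] at h3
    have h2 : (Nat.card φ.ker : ℝ) * Nat.card (Y ⧸ D) = x := by
      rw [hx, ← Nat.card_eq_fintype_card]
      exact_mod_cast h1
    rw [eq_div_iff hy0.ne', ← hyd, ← h2]
    ring
  -- the fibres of the defect
  have hF : ∀ u : X, ∑ m : X, (if T (m * u) = T m then (1 : ℝ) else 0) ≤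
      (if u ∈ φ.ker then x / Nat.card D else 0) + (if u ∈ W then x else 0) := by
    intro u
    have hnn : (0 : ℝ) ≤ (if u ∈ φ.ker then x / Nat.card D else 0) := by
      split_ifs
      · positivity
      · exact le_rfl
    by_cases huW : u ∈ W
    · rw [if_pos huW]
      have : ∑ m : X, (if T (m * u) = T m then (1 : ℝ) else 0) ≤ ∑ m : X, (1 : ℝ) :=
        Finset.sum_le_sum fun m _ => by split_ifs <;> norm_num
      rw [Finset.sum_const, Finset.card_univ, nsmul_eq_mul, mul_one] at this
      linarith
    · rw [if_neg huW, add_zero]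
      have heq : ∀ m : X, T (m * u) = T m ↔ B m u = (T u)⁻¹ := by
        intro m
        rw [hT, mul_assoc]
        constructor
        · intro h
          have h1 : T u * B m u = 1 := by
            have := mul_left_cancel (a := T m) (b := T u * B m u) (c := 1) (by rw [h, mul_one])
            exact this
          exact eq_inv_of_mul_eq_one_right h1
        · intro h
          rw [h, mul_inv_cancel, mul_one]
      by_cases huk : u ∈ φ.ker
      · rw [if_pos huk]
        have hTu : T u ∈ D := (hker u).1 huk
        let f : X →* D := MonoidHom.mk' (fun m => (⟨B m u, hB m u⟩ : D)) (by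
          intro m m'
          ext
          exact hBm m m' u)
        have hfs : Function.Surjective f := by
          rintro ⟨δ, hδ⟩
          obtain ⟨m, hm⟩ := hW u huW δ hδ
          exact ⟨m, Subtype.ext hm⟩
        have h1 := fiber_card f hfs ⟨(T u)⁻¹, D.inv_mem hTu⟩
        have h2 : (Finset.univ.filter fun m : X => f m = ⟨(T u)⁻¹, D.inv_mem hTu⟩) =
            Finset.univ.filter fun m : X => T (m * u) = T m := by
          ext m
          rw [Finset.mem_filter, Finset.mem_filter, heq m]
          constructor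
          · rintro ⟨h, h'⟩
            exact ⟨h, congrArg Subtype.val h'⟩
          · rintro ⟨h, h'⟩
            exact ⟨h, Subtype.ext h'⟩
        rw [h2] at h1
        rw [le_div_iff₀ hd0, Finset.sum_boole, h1]
      · rw [if_neg huk]
        apply le_of_eq
        apply Finset.sum_eq_zero
        intro m _
        rw [if_neg]
        intro h
        apply huk
        rw [hker]
        have h1 := (heq m).1 h
        have h2 : T u = (B m u)⁻¹ := by rw [h1, inv_inv]
        rw [h2]
        exact D.inv_mem (hB m u)
  -- the second moment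
  have hS2 : ∑ k : Y, (∑ m : X, (if T m = k then (1 : ℝ) else 0)) ^ 2 ≤
      x ^ 2 / y + Nat.card W * x := by
    rw [sum_sq T]
    have h1 : ∀ m : X, ∑ m' : X, (if T m' = T m then (1 : ℝ) else 0) =
        ∑ u : X, (if T (m * u) = T m then (1 : ℝ) else 0) := by
      intro m
      exact (Fintype.sum_equiv (Equiv.mulLeft m) _ _ (fun u => rfl)).symm
    rw [Finset.sum_congr rfl fun m _ => h1 m, Finset.sum_comm]
    refine (Finset.sum_le_sum fun u _ => hF u).trans ?_
    rw [Finset.sum_add_distrib, ← Finset.sum_filter, ← Finset.sum_filter, Finset.sum_const,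
      Finset.sum_const, nsmul_eq_mul, nsmul_eq_mul]
    have e1 : ((Finset.univ.filter fun u : X => u ∈ φ.ker).card : ℝ) = Nat.card φ.ker := by
      rw [← Fintype.card_subtype, ← Nat.card_eq_fintype_card]
    have e2 : ((Finset.univ.filter fun u : X => u ∈ W).card : ℝ) = Nat.card W := by
      rw [← Fintype.card_subtype, ← Nat.card_eq_fintype_card]
    rw [e1, e2, hkc]
    apply le_of_eq
    field_simp
  -- variance
  have hN : (Nat.card {m : X // T m = κ} : ℝ) = ∑ m : X, (if T m = κ then (1 : ℝ) else 0) := by
    rw [Finset.sum_boole, Nat.card_eq_fintype_card, Fintype.card_subtype]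
  have hvar : ∑ k : Y, (∑ m : X, (if T m = k then (1 : ℝ) else 0) - x / y) ^ 2 =
      ∑ k : Y, (∑ m : X, (if T m = k then (1 : ℝ) else 0)) ^ 2 - x ^ 2 / y := by
    have h1 : ∀ k : Y, (∑ m : X, (if T m = k then (1 : ℝ) else 0) - x / y) ^ 2 =
        (∑ m : X, (if T m = k then (1 : ℝ) else 0)) ^ 2 -
          2 * (x / y) * (∑ m : X, (if T m = k then (1 : ℝ) else 0)) + (x / y) ^ 2 := by
      intro k
      ring
    rw [Finset.sum_congr rfl fun k _ => h1 k, Finset.sum_add_distrib, Finset.sum_sub_distrib,
      ← Finset.mul_sum, sum_ind T, Finset.sum_const, Finset.card_univ, nsmul_eq_mul, ← hx, ← hy]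
    field_simp
    ring
  have hle : (∑ m : X, (if T m = κ then (1 : ℝ) else 0) - x / y) ^ 2 ≤
      ∑ k : Y, (∑ m : X, (if T m = k then (1 : ℝ) else 0) - x / y) ^ 2 :=
    Finset.single_le_sum (f := fun k : Y =>
      (∑ m : X, (if T m = k then (1 : ℝ) else 0) - x / y) ^ 2)
      (fun k _ => sq_nonneg _) (Finset.mem_univ κ)
  rw [Nat.card_eq_fintype_card (α := X), Nat.card_eq_fintype_card (α := Y), hN, ← hx, ← hy]
  have hsw : (x / y - ∑ m : X, (if T m = κ then (1 : ℝ) else 0)) ^ 2 =
      (∑ m : X, (if T m = κ then (1 : ℝ) else 0) - x / y) ^ 2 := by ring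
  rw [hsw]
  linarith

end Pool.Agent.H91.EL
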