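import Pool.Agent.H91.EL.Basic

/-!
End lemma (MP_ee74d2_an, d = 3, exponents below 10/3): the configuration and the targets.
Page H91_EL.md.
-/

set_option autoImplicit false

namespace Pool.Agent.H91.EL

open Pool.Agent.H83.G
open scoped RealInnerProductSpace

section

variable {ι : Type}

open scoped Classical in
/-- the planks through `z` -/
noncomputable def PZ (P : Finset ι) (I : Z 2 → ι → Prop) (z : Z 2) : Finset ι :=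
  P.filter fun p => I z p

open scoped Classical in
/-- the points on the plank `p` -/
noncomputable def XP (X : Finset (Z 2)) (I : Z 2 → ι → Prop) (p : ι) : Finset (Z 2) :=
  X.filter fun z => I z p

open scoped Classical in
/-- the planks through `z` whose direction is in the disc of centre `η₀` and radius `s` -/
noncomputable def PC (P : Finset ι) (I : Z 2 → ι → Prop) (η : ι → E 2) (z : Z 2) (η₀ : E 2)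
    (s : ℝ) : Finset ι :=
  P.filter fun p => I z p ∧ ‖η p - η₀‖ ≤ s

/-- the configuration of points and planks in a ball of radius `ρ²`, planar at scale `1/K` -/
structure Conf (ρ D K : ℝ) (X : Finset (Z 2)) (P : Finset ι) (η : ι → E 2)
    (I : Z 2 → ι → Prop) : Prop where
  one_le_D : 1 ≤ D
  D_le_K : D ≤ K
  K_le : K ≤ ρ
  sep : Sep X
  ball : ∀ z ∈ X, ‖z‖ ≤ ρ ^ 2
  eta : ∀ p ∈ P, ‖η p‖ ≤ 3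
  h0 : ∀ p ∈ P, ∀ z ∈ X, ∀ z' ∈ X, I z p → I z' p → ‖Lo (η p) ρ⁻¹ (z - z')‖ ≤ D
  h1 : ∀ z ∈ X, ∀ η₀ : E 2, ((PC P I η z η₀ ρ⁻¹).card : ℝ) ≤ D
  h2 : ∀ z ∈ X, ρ ≤ D * ((PZ P I z).card : ℝ)
  h3 : ∀ p ∈ P, ρ ^ 4 ≤ D * ((XP X I p).card : ℝ)
  h4 : ∀ z ∈ X, ∀ (η₀ : E 2) (s : ℝ), K⁻¹ ≤ s → ((PC P I η z η₀ s).card : ℝ) ≤ D * s * ρ
  h5 : ∀ z ∈ X, ∃ n : Z 2, ‖n‖ = 1 ∧ ∀ p ∈ P, I z p → |qB n (ll (η p))| ≤ K⁻¹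
  h6 : (P.card : ℝ) ≤ D * ρ ^ 4

/-- half good walks `a - p - y - p' - x` -/
structure GH (ρ r : ℝ) (X : Finset (Z 2)) (P : Finset ι) (η : ι → E 2) (I : Z 2 → ι → Prop)
    (a : Z 2) (p : ι) (y : Z 2) (p' : ι) (x : Z 2) : Prop where
  ha : a ∈ X
  hp : p ∈ P
  hy : y ∈ X
  hp' : p' ∈ P
  hx : x ∈ X
  Iap : I a p
  Iyp : I y p
  Iyp' : I y p'
  Ixp' : I x p'
  w2 : r * ρ ^ 2 ≤ |x.2.2 - y.2.2|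
  ang : r ≤ ‖η p - η p'‖

/-- good walks -/
structure GW (ρ r : ℝ) (X : Finset (Z 2)) (P : Finset ι) (η : ι → E 2) (I : Z 2 → ι → Prop)
    (a : Z 2) (p : ι) (y : Z 2) (p' : ι) (x : Z 2) : Prop extends
    GH ρ r X P η I a p y p' x where
  w1 : r * ρ ^ 2 ≤ |y.2.2 - a.2.2|

open scoped Classical in
/-- all good walks -/
noncomputable def WK (ρ r : ℝ) (X : Finset (Z 2)) (P : Finset ι) (η : ι → E 2)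
    (I : Z 2 → ι → Prop) : Finset (Z 2 × ι × Z 2 × ι × Z 2) :=
  (X ×ˢ P ×ˢ X ×ˢ P ×ˢ X).filter fun t => GW ρ r X P η I t.1 t.2.1 t.2.2.1 t.2.2.2.1 t.2.2.2.2

open scoped Classical in
/-- the good walks `(p, y, p')` from `a` to `x` -/
noncomputable def Wax (ρ r : ℝ) (X : Finset (Z 2)) (P : Finset ι) (η : ι → E 2)
    (I : Z 2 → ι → Prop) (a x : Z 2) : Finset (ι × Z 2 × ι) :=
  (P ×ˢ X ×ˢ P).filter fun t => GW ρ r X P η I a t.1 t.2.1 t.2.2 x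

end

/-- the geometric part of a half good walk -/
structure GG (ρ D r : ℝ) (a : Z 2) (η : E 2) (y : Z 2) (η' : E 2) (x : Z 2) : Prop where
  na : ‖a‖ ≤ ρ ^ 2
  ny : ‖y‖ ≤ ρ ^ 2
  nx : ‖x‖ ≤ ρ ^ 2
  e1 : ‖η‖ ≤ 3
  e2 : ‖η'‖ ≤ 3
  l1 : ‖Lo η ρ⁻¹ (y - a)‖ ≤ D
  l2 : ‖Lo η' ρ⁻¹ (x - y)‖ ≤ D
  w2 : r * ρ ^ 2 ≤ |x.2.2 - y.2.2|
  ang : r ≤ ‖η - η'‖

/-- the coefficient of the sphere through `x`, tangent to the plane of normal `n` at `a` -/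
noncomputable def lamx (n a x : Z 2) : ℝ := -2 * qB n (x - a) / qQ (x - a)

/-- the sphere function -/
noncomputable def Sg (lam : ℝ) (n a z : Z 2) : ℝ := lam * qQ (z - a) + 2 * qB n (z - a)

/-- its gradient at `z` -/
noncomputable def gr (lam : ℝ) (n a z : Z 2) : Z 2 := (2 * lam) • (z - a) + (2 : ℝ) • n

/-! ### counting -/

/-- BOX: separated points in a box -/
def T_BOX : Prop :=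
  ∃ C : ℝ, 1 ≤ C ∧ ∀ (f : Fin 4 → Z 2 →ₗ[ℝ] ℝ) (t L : Fin 4 → ℝ) (Y : Finset (Z 2)),
    (∀ z, ∃ i, ‖z‖ ≤ 1000 * |f i z|) → Sep Y → (∀ i, 1 ≤ L i) →
    (∀ z ∈ Y, ∀ i, |f i z - t i| ≤ L i) → (Y.card : ℝ) ≤ C * ∏ i, L i

/-- PL1: points on one plank with `w` in an interval -/
def T_PL1 : Prop :=
  ∃ C : ℝ, 1 ≤ C ∧ ∀ (ρ D L t : ℝ) (η : E 2) (Y : Finset (Z 2)), 1 ≤ ρ → 1 ≤ D → 1 ≤ L →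
    ‖η‖ ≤ 3 → Sep Y → (∀ z ∈ Y, ∀ z' ∈ Y, ‖Lo η ρ⁻¹ (z - z')‖ ≤ D) →
    (∀ z ∈ Y, |z.2.2 - t| ≤ L) → (Y.card : ℝ) ≤ C * D ^ 3 * ρ ^ 2 * L

/-- PL2: points on two transversal planks with `w` in an interval -/
def T_PL2 : Prop :=
  ∃ C : ℝ, 1 ≤ C ∧ ∀ (ρ D L t r : ℝ) (η η' : E 2) (Y : Finset (Z 2)), 1 ≤ ρ → 1 ≤ D → 1 ≤ L →
    0 < r → r ≤ 1 → ‖η‖ ≤ 3 → ‖η'‖ ≤ 3 → r ≤ ‖η - η'‖ → Sep Y →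
    (∀ z ∈ Y, ∀ z' ∈ Y, ‖Lo η ρ⁻¹ (z - z')‖ ≤ D) →
    (∀ z ∈ Y, ∀ z' ∈ Y, ‖Lo η' ρ⁻¹ (z - z')‖ ≤ D) →
    (∀ z ∈ Y, |z.2.2 - t| ≤ L) → (Y.card : ℝ) ≤ C * D ^ 3 * ρ * L / r

/-- CAN: planks of a point in a small disc of directions -/
def T_CAN : Prop :=
  ∃ C : ℝ, 1 ≤ C ∧ ∀ (ι : Type) (ρ D K : ℝ) (X : Finset (Z 2)) (P : Finset ι) (η : ι → E 2)
    (I : Z 2 → ι → Prop), Conf ρ D K X P η I → ∀ z ∈ X, ∀ (η₀ : E 2) (s : ℝ), ρ⁻¹ ≤ s →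
    ((PC P I η z η₀ s).card : ℝ) ≤ C * D * (s * ρ) ^ 2

/-- NUM: total numbers -/
def T_NUM : Prop :=
  ∃ C : ℝ, 1 ≤ C ∧ ∀ (ι : Type) (ρ D K : ℝ) (X : Finset (Z 2)) (P : Finset ι) (η : ι → E 2)
    (I : Z 2 → ι → Prop), Conf ρ D K X P η I →
    (X.card : ℝ) ≤ C * D ^ 5 * ρ ^ 7 ∧ (∀ z ∈ X, ((PZ P I z).card : ℝ) ≤ C * D * ρ) ∧
    ∀ p ∈ P, ((XP X I p).card : ℝ) ≤ C * D ^ 3 * ρ ^ 4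

/-! ### geometry of walks -/

/-- NDG: good walks are not degenerate -/
def T_NDG : Prop :=
  ∃ C : ℝ, 1 ≤ C ∧ ∀ (ρ D r : ℝ) (a : Z 2) (η : E 2) (y : Z 2) (η' : E 2) (x : Z 2), 1 ≤ ρ →
    1 ≤ D → 0 < r → r ≤ 1 → C * D ≤ r ^ 4 * ρ → GG ρ D r a η y η' x →
    r ^ 3 * ρ ^ 2 ≤ |qB (x - a) (ll η)| ∧
    (r * ρ ^ 2 ≤ |y.2.2 - a.2.2| → r ^ 4 * ρ ^ 4 ≤ |qQ (x - a)|)

/-- WIN: the window of `(y, η')` for given `a, η, x` -/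
def T_WIN : Prop :=
  ∃ C : ℝ, 1 ≤ C ∧ ∀ (ρ D r : ℝ) (a : Z 2) (η : E 2) (x y₁ : Z 2) (η₁ : E 2) (y₂ : Z 2)
    (η₂ : E 2), 1 ≤ ρ → 1 ≤ D → 0 < r → r ≤ 1 → C * D ≤ r ^ 4 * ρ →
    GG ρ D r a η y₁ η₁ x → GG ρ D r a η y₂ η₂ x →
    |y₁.2.2 - y₂.2.2| ≤ C * D * ρ / r ^ 3 ∧ ‖η₁ - η₂‖ ≤ C * D / (r ^ 4 * ρ)

/-- MUL: the number of half good walks with given `a, p, x` -/
def T_MUL : Prop :=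
  ∃ C : ℝ, 1 ≤ C ∧ ∀ (ι : Type) (ρ D K r : ℝ) (X : Finset (Z 2)) (P : Finset ι) (η : ι → E 2)
    (I : Z 2 → ι → Prop), Conf ρ D K X P η I → 0 < r → r ≤ 1 → C * D ≤ r ^ 4 * ρ →
    ∀ (a : Z 2) (p : ι) (x : Z 2) (W : Finset (Z 2 × ι)),
    (∀ t ∈ W, GH ρ r X P η I a p t.1 t.2 x) → (W.card : ℝ) ≤ C * D ^ 7 * ρ ^ 2 / r ^ 12

/-! ### choice of `a` -/

/-- WLB: lower bound for the number of good walks -/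
def T_WLB : Prop :=
  ∃ C : ℝ, 1 ≤ C ∧ ∀ (ι : Type) (ρ D K r : ℝ) (X : Finset (Z 2)) (P : Finset ι) (η : ι → E 2)
    (I : Z 2 → ι → Prop), Conf ρ D K X P η I → K⁻¹ ≤ r → C * D ^ 4 * r ≤ 1 → 1 ≤ r * ρ ^ 2 →
    (X.card : ℝ) * ρ ^ 10 ≤ 8 * D ^ 4 * ((WK ρ r X P η I).card : ℝ)

open scoped Classical in
/-- GDP: a point `a` with many partners `x` -/
def T_GDP : Prop :=
  ∃ C : ℝ, 1 ≤ C ∧ ∀ (ι : Type) (ρ D K r : ℝ) (X : Finset (Z 2)) (P : Finset ι) (η : ι → E 2)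
    (I : Z 2 → ι → Prop), Conf ρ D K X P η I → X.Nonempty → K⁻¹ ≤ r → C * D ^ 4 * r ≤ 1 →
    C * D ≤ r ^ 4 * ρ →
    ∃ a ∈ X, ρ ^ 7 * r ^ 12 ≤ C * D ^ 12 *
      ((X.filter fun x => ρ ^ 3 ≤ C * D ^ 9 * ((Wax ρ r X P η I a x).card : ℝ)).card : ℝ)

/-- THR: three good walks with separated last directions -/
def T_THR : Prop :=
  ∀ C₁ : ℝ, 1 ≤ C₁ → ∃ C : ℝ, 1 ≤ C ∧ ∀ (ι : Type) (ρ D K r : ℝ) (X : Finset (Z 2))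
    (P : Finset ι) (η : ι → E 2) (I : Z 2 → ι → Prop), Conf ρ D K X P η I → 0 < r → r ≤ 1 →
    C * D ≤ r ^ 4 * ρ → C * D ^ 17 ≤ r ^ 12 * K → ∀ a x : Z 2,
    ρ ^ 3 ≤ C₁ * D ^ 9 * ((Wax ρ r X P η I a x).card : ℝ) →
    ∃ t₁ t₂ t₃ : ι × Z 2 × ι, GW ρ r X P η I a t₁.1 t₁.2.1 t₁.2.2 x ∧
      GW ρ r X P η I a t₂.1 t₂.2.1 t₂.2.2 x ∧ GW ρ r X P η I a t₃.1 t₃.2.1 t₃.2.2 x ∧
      r ^ 12 ≤ C * D ^ 17 * ‖η t₁.2.2 - η t₂.2.2‖ ∧ r ^ 12 ≤ C * D ^ 17 * ‖η t₁.2.2 - η t₃.2.2‖ ∧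
      r ^ 12 ≤ C * D ^ 17 * ‖η t₂.2.2 - η t₃.2.2‖

/-! ### the sphere -/

/-- LAG: linear algebra with four null directions -/
def T_LAG : Prop :=
  ∃ C : ℝ, 1 ≤ C ∧ ∀ (η₁ η₂ η₃ η : E 2) (n g : Z 2) (κ M ε s : ℝ), ‖η₁‖ ≤ 3 → ‖η₂‖ ≤ 3 →
    ‖η₃‖ ≤ 3 → ‖η‖ ≤ 3 → 0 < s → s ≤ ‖η₁ - η₂‖ → s ≤ ‖η₁ - η₃‖ → s ≤ ‖η₂ - η₃‖ → ‖n‖ = 1 →
    |qB n (ll η₁)| ≤ κ → |qB n (ll η₂)| ≤ κ → |qB n (ll η₃)| ≤ κ → |qB n (ll η)| ≤ κ →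
    ‖g‖ ≤ M → |qB g (ll η₁)| ≤ ε → |qB g (ll η₂)| ≤ ε → |qB g (ll η₃)| ≤ ε →
    |qB g (ll η)| ≤ C * (M * κ + ε) / s ^ 3

/-- SPD: the sphere is tangent to the last planks of the walks -/
def T_SPD : Prop :=
  ∃ C : ℝ, 1 ≤ C ∧ ∀ (ρ D K r : ℝ) (a : Z 2) (η : E 2) (y : Z 2) (η' : E 2) (x n : Z 2), 1 ≤ ρ →
    1 ≤ D → 1 ≤ K → K ≤ ρ → 0 < r → r ≤ 1 → C * D ≤ r ^ 4 * ρ → GG ρ D r a η y η' x →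
    r * ρ ^ 2 ≤ |y.2.2 - a.2.2| → ‖n‖ = 1 → |qB n (ll η)| ≤ K⁻¹ →
    |lamx n a x| ≤ C / (r ^ 4 * ρ ^ 2) ∧ ‖gr (lamx n a x) n a x‖ ≤ C / r ^ 4 ∧
    |qB (gr (lamx n a x) n a x) (ll η')| ≤ C * D / (r ^ 5 * K)

/-- SPL: the values on the planks through `x` -/
def T_SPL : Prop :=
  ∃ C : ℝ, 1 ≤ C ∧ ∀ (ρ D r ε lam : ℝ) (a x z n : Z 2) (η : E 2), 1 ≤ ρ → 1 ≤ D → D ≤ ρ →
    0 < r → r ≤ 1 → ‖a‖ ≤ ρ ^ 2 → ‖x‖ ≤ ρ ^ 2 → ‖z‖ ≤ ρ ^ 2 → ‖n‖ = 1 → ‖η‖ ≤ 3 →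
    |lam| ≤ 1 / (r * ρ ^ 2) → ‖Lo η ρ⁻¹ (z - x)‖ ≤ D → |qB (gr lam n a x) (ll η)| ≤ ε →
    |Sg lam n a z - Sg lam n a x| ≤ C * (ε * ρ ^ 2 + D * ρ / r) ∧
    |qB (gr lam n a z) (ll η)| ≤ ε + C * D / (r * ρ ^ 2)

/-! ### one sphere -/

open scoped Classical in
/-- QSE: good points `q` on a plank through `x` -/
def T_QSE : Prop :=
  ∃ C : ℝ, 1 ≤ C ∧ ∀ (ι : Type) (ρ D K r r' : ℝ) (X : Finset (Z 2)) (P : Finset ι)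
    (η : ι → E 2) (I : Z 2 → ι → Prop), Conf ρ D K X P η I → 0 < r → C * D ^ 4 * r ≤ 1 →
    C * D ^ 5 ≤ r ^ 4 * ρ → 0 < r' → C * D ^ 4 * r' ≤ r ^ 4 → ∀ a ∈ X, ∀ x ∈ X, ∀ p ∈ P, I x p →
    r ^ 4 * ρ ^ 4 ≤ |qQ (x - a)| →
    ρ ^ 4 ≤ 2 * D * ((X.filter fun q => I q p ∧ r * ρ ^ 2 ≤ |q.2.2 - x.2.2| ∧
      r' * ρ ^ 4 ≤ |qQ (q - a)|).card : ℝ)

open scoped Classical in
/-- QFX: one point `q` for many `x` -/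
def T_QFX : Prop :=
  ∃ C : ℝ, 1 ≤ C ∧ ∀ (ι : Type) (ρ D K r r' : ℝ) (X : Finset (Z 2)) (P : Finset ι)
    (η : ι → E 2) (I : Z 2 → ι → Prop), Conf ρ D K X P η I → 0 < r → C * D ^ 4 * r ≤ 1 →
    C * D ^ 5 ≤ r ^ 4 * ρ → 0 < r' → C * D ^ 4 * r' ≤ r ^ 4 → ∀ a ∈ X, ∀ G ⊆ X, G.Nonempty →
    (∀ x ∈ G, r ^ 4 * ρ ^ 4 ≤ |qQ (x - a)|) →
    ∃ q ∈ X, r' * ρ ^ 4 ≤ |qQ (q - a)| ∧ (G.card : ℝ) * r ^ 2 ≤ C * D ^ 10 * ρ ^ 2 *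
      ((G.filter fun x => ∃ p ∈ P, I x p ∧ I q p ∧ r * ρ ^ 2 ≤ |q.2.2 - x.2.2|).card : ℝ)

open scoped Classical in
/-- PST: many planks through the points joined to `q` -/
def T_PST : Prop :=
  ∃ C : ℝ, 1 ≤ C ∧ ∀ (ι : Type) (ρ D K r : ℝ) (X : Finset (Z 2)) (P : Finset ι)
    (η : ι → E 2) (I : Z 2 → ι → Prop), Conf ρ D K X P η I → K⁻¹ ≤ r → C * D ^ 4 * r ≤ 1 →
    C * D ≤ r ^ 4 * ρ → ∀ q ∈ X, ∀ Y ⊆ X,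
    (∀ x ∈ Y, ∃ p ∈ P, I x p ∧ I q p ∧ r * ρ ^ 2 ≤ |q.2.2 - x.2.2|) →
    (Y.card : ℝ) * r ^ 12 ≤ C * D ^ 8 * ρ * ((P.filter fun p => ∃ x ∈ Y, I x p).card : ℝ)

/-! ### conclusion -/

/-- MAI: the end lemma -/
def T_MAI : Prop :=
  ∃ C : ℝ, 1 ≤ C ∧ ∀ (ι : Type) (ρ D K : ℝ) (X : Finset (Z 2)) (P : Finset ι)
    (η : ι → E 2) (I : Z 2 → ι → Prop), Conf ρ D K X P η I → X.Nonempty → C * D ^ 240 ≤ K →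
    ∃ a ∈ X, ∃ (n : Z 2) (lam : ℝ) (Ps : Finset ι), Ps ⊆ P ∧ ‖n‖ = 1 ∧
      |lam| * ρ ^ 2 ≤ C * D ^ 20 ∧ ρ ^ 4 ≤ C * D ^ 134 * (Ps.card : ℝ) ∧
      ∀ p ∈ Ps, ∀ z ∈ X, I z p → |Sg lam n a z| ≤ C * D ^ 236 * ρ ^ 2 / K ∧
        |qB (gr lam n a z) (ll (η p))| ≤ C * D ^ 236 / K

end Pool.Agent.H91.EL
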