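import Pool.Agent.H91.EL.MAI
import Pool.Agent.H45.EL.BOX
import Pool.Agent.H32.EL.CAN
import Pool.Agent.H53.EL.GDP
import Pool.Agent.H7.EL.LAG
import Pool.Agent.H4.EL.MUL
import Pool.Agent.H67.EL.NDG
import Pool.Agent.H11.EL.NUM
import Pool.Agent.H32.EL.PL1
import Pool.Agent.H32.EL.PL2
import Pool.Agent.H36.EL.PST
import Pool.Agent.H20.EL.QFX
import Pool.Agent.H67.EL.QSE
import Pool.Agent.H63.EL.SPD
import Pool.Agent.H36.EL.SPL
import Pool.Agent.H33.EL.THR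
import Pool.Agent.H1.EL.WIN
import Pool.Agent.H33.EL.WLB

/-!
End lemma (MP_ee74d2_an, d = 3, exponents below 10/3): all rows of the board elm_modules put
together.
-/

set_option autoImplicit false

namespace Pool.Agent.H91.EL

theorem all_BOX : T_BOX := Pool.Agent.H45.EL.pf_BOX
theorem all_PL1 : T_PL1 := Pool.Agent.H32.EL.pf_PL1 all_BOX
theorem all_PL2 : T_PL2 := Pool.Agent.H32.EL.pf_PL2 all_BOX
theorem all_CAN : T_CAN := Pool.Agent.H32.EL.pf_CAN
theorem all_NUM : T_NUM := Pool.Agent.H11.EL.pf_NUM all_PL1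
theorem all_NDG : T_NDG := Pool.Agent.H67.EL.pf_NDG
theorem all_WIN : T_WIN := Pool.Agent.H1.EL.WINf.pf_WIN all_NDG
theorem all_MUL : T_MUL := Pool.Agent.H4.EL.pf_MUL all_WIN all_PL2 all_CAN
theorem all_WLB : T_WLB := Pool.Agent.H33.EL.pf_WLB all_PL1
theorem all_GDP : T_GDP := Pool.Agent.H53.EL.pf_GDP all_WLB all_MUL all_NUM
theorem all_THR : T_THR := Pool.Agent.H33.EL.pf_THR all_MUL
theorem all_LAG : T_LAG := Pool.Agent.H7.EL.pf_LAG
theorem all_SPD : T_SPD := Pool.Agent.H63.EL.pf_SPD all_NDG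
theorem all_SPL : T_SPL := Pool.Agent.H36.EL.pf_SPL
theorem all_QSE : T_QSE := Pool.Agent.H67.EL.pf_QSE all_PL1
theorem all_QFX : T_QFX := Pool.Agent.H20.EL.pf_QFX all_QSE all_NUM all_CAN
theorem all_PST : T_PST := Pool.Agent.H36.EL.pf_PST all_MUL

/-- the end lemma -/
theorem end_lemma : T_MAI :=
  pf_MAI all_GDP all_THR all_NDG all_LAG all_SPD all_SPL all_QFX all_PST

end Pool.Agent.H91.EL
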