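import Pool.Agent.H83.G.Defs

/-!
End lemma (MP_ee74d2_an, d = 3, exponents below 10/3): definitions and elementary algebra.
Page H91_EL.md.
-/

set_option autoImplicit false

namespace Pool.Agent.H91.EL

open Pool.Agent.H83.G
open scoped RealInnerProductSpace

/-- the Lorentz form `4 v w - |y|²` polarized -/
noncomputable def qB (z z' : Z 2) : ℝ := 2 * z.1 * z'.2.2 + 2 * z'.1 * z.2.2 - ⟪z.2.1, z'.2.1⟫

/-- the quadratic form -/
noncomputable def qQ (z : Z 2) : ℝ := qB z z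

/-- the null direction with parameter `η` -/
noncomputable def ll (η : E 2) : Z 2 := (‖η‖ ^ 2, (-2 : ℝ) • η, 1)

theorem qB_comm (z z' : Z 2) : qB z z' = qB z' z := by
  unfold qB
  rw [real_inner_comm]
  ring

theorem qB_add_left (z u z' : Z 2) : qB (z + u) z' = qB z z' + qB u z' := by
  unfold qB
  simp only [Prod.fst_add, Prod.snd_add, inner_add_left]
  ring

theorem qB_smul_left (t : ℝ) (z z' : Z 2) : qB (t • z) z' = t * qB z z' := by
  unfold qB
  simp only [Prod.smul_fst, Prod.smul_snd, inner_smul_left, smul_eq_mul]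
  simp
  ring

theorem qB_add_right (z u z' : Z 2) : qB z' (z + u) = qB z' z + qB z' u := by
  rw [qB_comm, qB_add_left, qB_comm z, qB_comm u]

theorem qB_smul_right (t : ℝ) (z z' : Z 2) : qB z' (t • z) = t * qB z' z := by
  rw [qB_comm, qB_smul_left, qB_comm z]

theorem qB_sub_left (z u z' : Z 2) : qB (z - u) z' = qB z z' - qB u z' := by
  have h := qB_add_left (z - u) u z'
  rw [sub_add_cancel] at h
  linarith

theorem qB_sub_right (z u z' : Z 2) : qB z' (z - u) = qB z' z - qB z' u := by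
  rw [qB_comm, qB_sub_left, qB_comm z, qB_comm u]

theorem qB_neg_left (z z' : Z 2) : qB (-z) z' = -qB z z' := by
  have h := qB_smul_left (-1) z z'
  simpa using h

theorem qB_neg_right (z z' : Z 2) : qB z' (-z) = -qB z' z := by
  rw [qB_comm, qB_neg_left, qB_comm z]

theorem qB_zero_left (z : Z 2) : qB 0 z = 0 := by
  have h := qB_smul_left 0 z z
  simpa using h

theorem qB_zero_right (z : Z 2) : qB z 0 = 0 := by rw [qB_comm, qB_zero_left]

theorem qQ_add (z z' : Z 2) : qQ (z + z') = qQ z + 2 * qB z z' + qQ z' := by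
  unfold qQ
  rw [qB_add_left, qB_add_right, qB_add_right, qB_comm z' z]
  ring

theorem qQ_sub (z z' : Z 2) : qQ (z - z') = qQ z - 2 * qB z z' + qQ z' := by
  unfold qQ
  rw [qB_sub_left, qB_sub_right, qB_sub_right, qB_comm z' z]
  ring

theorem qQ_smul (t : ℝ) (z : Z 2) : qQ (t • z) = t ^ 2 * qQ z := by
  unfold qQ
  rw [qB_smul_left, qB_smul_right]
  ring

theorem qQ_neg (z : Z 2) : qQ (-z) = qQ z := by
  unfold qQ
  rw [qB_neg_left, qB_neg_right]
  ring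

/-- norm bounds of the components -/
theorem norm_fst_le' (z : Z 2) : |z.1| ≤ ‖z‖ := by
  rw [Prod.norm_def]; exact le_max_left _ _

theorem norm_y_le (z : Z 2) : ‖z.2.1‖ ≤ ‖z‖ := by
  rw [Prod.norm_def, Prod.norm_def]; exact (le_max_left _ _).trans (le_max_right _ _)

theorem norm_w_le (z : Z 2) : |z.2.2| ≤ ‖z‖ := by
  rw [Prod.norm_def, Prod.norm_def]; exact (le_max_right _ _).trans (le_max_right _ _)

theorem abs_qB_le (z z' : Z 2) : |qB z z'| ≤ 5 * (‖z‖ * ‖z'‖) := by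
  unfold qB
  have h1 := norm_fst_le' z
  have h2 := norm_fst_le' z'
  have h3 := norm_w_le z
  have h4 := norm_w_le z'
  have h5 := norm_y_le z
  have h6 := norm_y_le z'
  have h7 := abs_real_inner_le_norm z.2.1 z'.2.1
  have n1 := norm_nonneg z
  have n2 := norm_nonneg z'
  have a1 : |z.1 * z'.2.2| ≤ ‖z‖ * ‖z'‖ := by
    rw [abs_mul]; exact mul_le_mul h1 h4 (abs_nonneg _) n1
  have a2 : |z'.1 * z.2.2| ≤ ‖z‖ * ‖z'‖ := by
    rw [abs_mul, mul_comm]; exact mul_le_mul h3 h2 (abs_nonneg _) n1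
  have a3 : ‖z.2.1‖ * ‖z'.2.1‖ ≤ ‖z‖ * ‖z'‖ := mul_le_mul h5 h6 (norm_nonneg _) n1
  have e1 : 2 * z.1 * z'.2.2 + 2 * z'.1 * z.2.2 - ⟪z.2.1, z'.2.1⟫
      = 2 * (z.1 * z'.2.2) + 2 * (z'.1 * z.2.2) - ⟪z.2.1, z'.2.1⟫ := by ring
  rw [e1]
  have b1 := abs_le.1 a1
  have b2 := abs_le.1 a2
  have b3 := abs_le.1 h7
  rw [abs_le]
  constructor <;> linarith [b1.1, b1.2, b2.1, b2.2, b3.1, b3.2]

theorem qB_ll (η : E 2) (z : Z 2) : qB (ll η) z = 2 * (z.1 + ⟪z.2.1, η⟫ + z.2.2 * ‖η‖ ^ 2) := by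
  unfold qB ll
  simp only [inner_smul_left, real_inner_comm]
  simp
  ring

theorem qB_ll_Lo (η : E 2) (s : ℝ) (z : Z 2) : qB (ll η) z = 2 * (Lo η s z).1 := by
  rw [qB_ll]; rfl

theorem qB_ll_ll (η η' : E 2) : qB (ll η) (ll η') = 2 * ‖η - η'‖ ^ 2 := by
  rw [qB_ll]
  unfold ll
  rw [norm_sub_sq_real]
  simp only [inner_smul_left, real_inner_comm]
  simp
  ring

theorem qQ_ll (η : E 2) : qQ (ll η) = 0 := by
  unfold qQ
  rw [qB_ll_ll]
  simp

theorem norm_ll_le (η : E 2) (h : ‖η‖ ≤ 3) : ‖ll η‖ ≤ 9 := by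
  unfold ll
  rw [Prod.norm_def, Prod.norm_def]
  simp only [norm_smul, Real.norm_eq_abs]
  have h0 := norm_nonneg η
  refine max_le ?_ (max_le ?_ ?_)
  · rw [abs_of_nonneg (by positivity)]; nlinarith
  · norm_num; nlinarith
  · norm_num

theorem Lo_sub (η : E 2) (s : ℝ) (z z' : Z 2) : Lo η s (z - z') = Lo η s z - Lo η s z' := by
  unfold Lo
  ext1
  · simp only [Prod.fst_sub, Prod.snd_sub, inner_sub_left]; ring
  · ext1
    · simp only [Prod.fst_sub, Prod.snd_sub]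
      rw [← smul_sub]
      congr 1
      rw [mul_sub, sub_smul]
      abel
    · simp only [Prod.snd_sub]; ring

/-- decomposition along a plank -/
theorem dec {ρ D : ℝ} {η : E 2} {z z' : Z 2} (hρ : 1 ≤ ρ) (hD : 1 ≤ D) (hη : ‖η‖ ≤ 3)
    (h : ‖Lo η ρ⁻¹ (z - z')‖ ≤ D) :
    ∃ e : Z 2, z - z' = (z.2.2 - z'.2.2) • ll η + e ∧ e.2.2 = 0 ∧ ‖e.2.1‖ ≤ D * ρ ∧
      |qB (ll η) e| ≤ 2 * D ∧ ‖e‖ ≤ 4 * (D * ρ) := by
  set u := z - z' with hu
  have hw : z.2.2 - z'.2.2 = u.2.2 := by simp [hu]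
  refine ⟨u - u.2.2 • ll η, by rw [hw]; abel, ?_, ?_, ?_, ?_⟩
  · simp [ll]
  · have h2 := norm_y_le (Lo η ρ⁻¹ u)
    have h3 : ‖(Lo η ρ⁻¹ u).2.1‖ = ρ⁻¹ * ‖(u - u.2.2 • ll η).2.1‖ := by
      unfold Lo ll
      simp only [Prod.snd_sub, Prod.fst_sub, Prod.smul_snd, Prod.smul_fst, norm_smul,
        Real.norm_eq_abs, abs_of_pos (inv_pos.2 (lt_of_lt_of_le one_pos hρ))]
      congr 2
      rw [smul_smul]
      have : u.2.2 * (-2 : ℝ) = -(2 * u.2.2) := by ring
      rw [this, neg_smul, sub_neg_eq_add]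
    rw [h3] at h2
    have h4 : ρ⁻¹ * ‖(u - u.2.2 • ll η).2.1‖ ≤ D := h2.trans h
    rw [inv_mul_le_iff₀ (lt_of_lt_of_le one_pos hρ)] at h4
    linarith
  · have h5 : qB (ll η) (u - u.2.2 • ll η) = qB (ll η) u := by
      rw [qB_sub_right, qB_smul_right]
      have := qQ_ll η
      unfold qQ at this
      rw [this]; ring
    rw [h5, qB_ll_Lo η ρ⁻¹]
    have h6 := norm_fst_le' (Lo η ρ⁻¹ u)
    rw [abs_mul]
    norm_num
    linarith
  · set e := u - u.2.2 • ll η with he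
    have e2 : ‖e.2.1‖ ≤ D * ρ := by
      have h2 := norm_y_le (Lo η ρ⁻¹ u)
      have h3 : ‖(Lo η ρ⁻¹ u).2.1‖ = ρ⁻¹ * ‖(u - u.2.2 • ll η).2.1‖ := by
        unfold Lo ll
        simp only [Prod.snd_sub, Prod.fst_sub, Prod.smul_snd, Prod.smul_fst, norm_smul,
          Real.norm_eq_abs, abs_of_pos (inv_pos.2 (lt_of_lt_of_le one_pos hρ))]
        congr 2
        rw [smul_smul]
        have : u.2.2 * (-2 : ℝ) = -(2 * u.2.2) := by ring
        rw [this, neg_smul, sub_neg_eq_add]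
      rw [h3] at h2
      have h4 : ρ⁻¹ * ‖(u - u.2.2 • ll η).2.1‖ ≤ D := h2.trans h
      rw [inv_mul_le_iff₀ (lt_of_lt_of_le one_pos hρ)] at h4
      rw [he]; linarith
    have e3 : e.2.2 = 0 := by simp [he, ll]
    have e1 : |e.1 + ⟪e.2.1, η⟫| ≤ D := by
      have h5 : qB (ll η) e = qB (ll η) u := by
        rw [he, qB_sub_right, qB_smul_right]
        have := qQ_ll η
        unfold qQ at this
        rw [this]; ring
      have h6 := norm_fst_le' (Lo η ρ⁻¹ u)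
      rw [qB_ll_Lo η ρ⁻¹ u, qB_ll, e3] at h5
      have h7 : e.1 + ⟪e.2.1, η⟫ = (Lo η ρ⁻¹ u).1 := by linarith
      rw [h7]; exact h6.trans h
    have e4 := abs_real_inner_le_norm e.2.1 η
    have e5 : |e.1| ≤ D + 3 * (D * ρ) := by
      have := abs_le.1 e1
      have := abs_le.1 e4
      have h8 : ‖e.2.1‖ * ‖η‖ ≤ (D * ρ) * 3 :=
        mul_le_mul e2 hη (norm_nonneg _) (by positivity)
      rw [abs_le]
      constructor <;> linarith [abs_le.1 e1, abs_le.1 e4]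
    have e6 : D ≤ D * ρ := le_mul_of_one_le_right (by linarith) hρ
    rw [Prod.norm_def, Prod.norm_def]
    simp only [Real.norm_eq_abs]
    refine max_le (by linarith) (max_le (by nlinarith) ?_)
    rw [e3, abs_zero]; positivity

end Pool.Agent.H91.EL
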