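import Pool.Agent.H91.EL.Targets

/-!
End lemma (MP_ee74d2_an): assembly of `T_MAI`.
-/

set_option autoImplicit false

namespace Pool.Agent.H91.EL

open Pool.Agent.H83.G
open scoped RealInnerProductSpace

private theorem gg_of {ι : Type} {ρ D K r : ℝ} {X : Finset (Z 2)} {P : Finset ι} {η : ι → E 2}
    {I : Z 2 → ι → Prop} (h : Conf ρ D K X P η I) {a : Z 2} {p : ι} {y : Z 2} {p' : ι} {x : Z 2}
    (g : GW ρ r X P η I a p y p' x) : GG ρ D r a (η p) y (η p') x :=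
  ⟨h.ball a g.ha, h.ball y g.hy, h.ball x g.hx, h.eta p g.hp, h.eta p' g.hp',
    h.h0 p g.hp y g.hy a g.ha g.Iyp g.Iap, h.h0 p' g.hp' x g.hx y g.hy g.Ixp' g.Iyp', g.w2, g.ang⟩

/-- the plane at `x` is tangent to the sphere -/
private theorem sphere {Ct Cl Cs C₀ : ℝ} (h1t : 1 ≤ Ct) (_h1l : 1 ≤ Cl) (h1s : 1 ≤ Cs)
    (ht : Ct ≤ C₀) (hl : Cl ≤ C₀) (hs : Cs ≤ C₀) (h1000 : 1000 ≤ C₀)
    {ι : Type} {ρ D K r : ℝ} {X : Finset (Z 2)} {P : Finset ι} {η : ι → E 2}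
    {I : Z 2 → ι → Prop} (h : Conf ρ D K X P η I) (hr : r = 1 / (C₀ * D ^ 4))
    (LAG : ∀ (η₁ η₂ η₃ η : E 2) (n g : Z 2) (κ M ε s : ℝ), ‖η₁‖ ≤ 3 → ‖η₂‖ ≤ 3 →
      ‖η₃‖ ≤ 3 → ‖η‖ ≤ 3 → 0 < s → s ≤ ‖η₁ - η₂‖ → s ≤ ‖η₁ - η₃‖ → s ≤ ‖η₂ - η₃‖ → ‖n‖ = 1 →
      |qB n (ll η₁)| ≤ κ → |qB n (ll η₂)| ≤ κ → |qB n (ll η₃)| ≤ κ → |qB n (ll η)| ≤ κ →
      ‖g‖ ≤ M → |qB g (ll η₁)| ≤ ε → |qB g (ll η₂)| ≤ ε → |qB g (ll η₃)| ≤ ε →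
      |qB g (ll η)| ≤ Cl * (M * κ + ε) / s ^ 3)
    (SPD : ∀ (ρ D K r : ℝ) (a : Z 2) (η : E 2) (y : Z 2) (η' : E 2) (x n : Z 2), 1 ≤ ρ →
      1 ≤ D → 1 ≤ K → K ≤ ρ → 0 < r → r ≤ 1 → Cs * D ≤ r ^ 4 * ρ → GG ρ D r a η y η' x →
      r * ρ ^ 2 ≤ |y.2.2 - a.2.2| → ‖n‖ = 1 → |qB n (ll η)| ≤ K⁻¹ →
      |lamx n a x| ≤ Cs / (r ^ 4 * ρ ^ 2) ∧ ‖gr (lamx n a x) n a x‖ ≤ Cs / r ^ 4 ∧
      |qB (gr (lamx n a x) n a x) (ll η')| ≤ Cs * D / (r ^ 5 * K))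
    (hK : C₀ ^ 60 * D ^ 240 ≤ K) {a x n : Z 2} (hx : x ∈ X) (hn : ‖n‖ = 1)
    (hna : ∀ p ∈ P, I a p → |qB n (ll (η p))| ≤ K⁻¹)
    (hW : ∃ t₁ t₂ t₃ : ι × Z 2 × ι, GW ρ r X P η I a t₁.1 t₁.2.1 t₁.2.2 x ∧
      GW ρ r X P η I a t₂.1 t₂.2.1 t₂.2.2 x ∧ GW ρ r X P η I a t₃.1 t₃.2.1 t₃.2.2 x ∧
      r ^ 12 ≤ Ct * D ^ 17 * ‖η t₁.2.2 - η t₂.2.2‖ ∧ r ^ 12 ≤ Ct * D ^ 17 * ‖η t₁.2.2 - η t₃.2.2‖ ∧
      r ^ 12 ≤ Ct * D ^ 17 * ‖η t₂.2.2 - η t₃.2.2‖) :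
    |lamx n a x| ≤ C₀ ^ 5 * D ^ 16 / ρ ^ 2 ∧
      ∀ p ∈ P, I x p → |qB (gr (lamx n a x) n a x) (ll (η p))| ≤ C₀ ^ 47 * D ^ 216 / K := by
  obtain ⟨t₁, t₂, t₃, g₁, g₂, g₃, s₁₂, s₁₃, s₂₃⟩ := hW
  have hD := h.one_le_D
  have hD0 : 0 < D := by linarith
  have hC1 : 1 ≤ C₀ := by linarith
  have hC0 : 0 < C₀ := by linarith
  have hK0 : 0 < K := by linarith [h.D_le_K]
  have hK1 : 1 ≤ K := by linarith [h.D_le_K]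
  have hρ1 : 1 ≤ ρ := by linarith [h.K_le]
  have hρ0 : 0 < ρ := by linarith
  have hr0 : 0 < r := by rw [hr]; positivity
  have hD4 : 1 ≤ D ^ 4 := one_le_pow₀ hD
  have hr1 : r ≤ 1 := by
    rw [hr, div_le_one (by positivity)]
    nlinarith
  have hri : r⁻¹ = C₀ * D ^ 4 := by rw [hr]; simp
  have hr4 : r ^ 4 * (C₀ ^ 4 * D ^ 16) = 1 := by
    rw [hr]; field_simp
  have hCD : Cs * D ≤ r ^ 4 * ρ := by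
    have e1 : C₀ ^ 5 * D ^ 17 ≤ ρ := by
      have : C₀ ^ 5 * D ^ 17 ≤ C₀ ^ 60 * D ^ 240 := by
        gcongr <;> first | assumption | norm_num
      linarith [h.K_le]
    calc Cs * D ≤ C₀ * D := by gcongr
      _ = r ^ 4 * (C₀ ^ 4 * D ^ 16) * (C₀ * D) := by rw [hr4, one_mul]
      _ = r ^ 4 * (C₀ ^ 5 * D ^ 17) := by ring
      _ ≤ r ^ 4 * ρ := by gcongr
  obtain ⟨l₁, m₁, q₁⟩ := SPD ρ D K r a (η t₁.1) t₁.2.1 (η t₁.2.2) x n hρ1 hD hK1 h.K_le hr0 hr1 hCD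
    (gg_of h g₁) g₁.w1 hn (hna _ g₁.hp g₁.Iap)
  obtain ⟨-, -, q₂⟩ := SPD ρ D K r a (η t₂.1) t₂.2.1 (η t₂.2.2) x n hρ1 hD hK1 h.K_le hr0 hr1 hCD
    (gg_of h g₂) g₂.w1 hn (hna _ g₂.hp g₂.Iap)
  obtain ⟨-, -, q₃⟩ := SPD ρ D K r a (η t₃.1) t₃.2.1 (η t₃.2.2) x n hρ1 hD hK1 h.K_le hr0 hr1 hCD
    (gg_of h g₃) g₃.w1 hn (hna _ g₃.hp g₃.Iap)
  refine ⟨?_, ?_⟩
  · refine l₁.trans ?_
    have e2 : Cs / (r ^ 4 * ρ ^ 2) = Cs * (C₀ ^ 4 * D ^ 16) / ρ ^ 2 := by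
      rw [div_eq_div_iff (by positivity) (by positivity)]
      calc Cs * ρ ^ 2 = Cs * ρ ^ 2 * (r ^ 4 * (C₀ ^ 4 * D ^ 16)) := by rw [hr4, mul_one]
        _ = _ := by ring
    rw [e2]
    refine div_le_div_of_nonneg_right ?_ (by positivity)
    calc Cs * (C₀ ^ 4 * D ^ 16) ≤ C₀ * (C₀ ^ 4 * D ^ 16) := by gcongr
      _ = C₀ ^ 5 * D ^ 16 := by ring
  · intro p hp hIp
    obtain ⟨n', hn', hnx⟩ := h.h5 x hx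
    set s : ℝ := r ^ 12 / (Ct * D ^ 17) with hsdef
    have hs0 : 0 < s := by rw [hsdef]; positivity
    have hsle : ∀ {u : ℝ}, r ^ 12 ≤ Ct * D ^ 17 * u → s ≤ u := by
      intro u hu
      rw [hsdef, div_le_iff₀ (by positivity)]
      linarith
    have key := LAG (η t₁.2.2) (η t₂.2.2) (η t₃.2.2) (η p) n' (gr (lamx n a x) n a x) K⁻¹
      (Cs / r ^ 4) (Cs * D / (r ^ 5 * K)) s (h.eta _ g₁.hp') (h.eta _ g₂.hp') (h.eta _ g₃.hp')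
      (h.eta _ hp) hs0 (hsle s₁₂) (hsle s₁₃) (hsle s₂₃) hn' (hnx _ g₁.hp' g₁.Ixp')
      (hnx _ g₂.hp' g₂.Ixp') (hnx _ g₃.hp' g₃.Ixp') (hnx _ hp hIp) m₁ q₁ q₂ q₃
    refine key.trans ?_
    have e3 : Cs / r ^ 4 * K⁻¹ + Cs * D / (r ^ 5 * K) ≤ 2 * (C₀ ^ 6 * D ^ 21) / K := by
      have a1 : Cs / r ^ 4 * K⁻¹ = Cs * (r⁻¹) ^ 4 / K := by field_simp
      have a2 : Cs * D / (r ^ 5 * K) = Cs * D * (r⁻¹) ^ 5 / K := by field_simp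
      rw [a1, a2, ← add_div, hri]
      gcongr
      have b1 : Cs * (C₀ * D ^ 4) ^ 4 ≤ C₀ ^ 6 * D ^ 21 := by
        calc Cs * (C₀ * D ^ 4) ^ 4 ≤ C₀ * (C₀ * D ^ 4) ^ 4 := by gcongr
          _ = C₀ ^ 5 * D ^ 16 := by ring
          _ ≤ C₀ ^ 6 * D ^ 21 := by gcongr <;> first | assumption | norm_num
      have b2 : Cs * D * (C₀ * D ^ 4) ^ 5 ≤ C₀ ^ 6 * D ^ 21 := by
        calc Cs * D * (C₀ * D ^ 4) ^ 5 ≤ C₀ * D * (C₀ * D ^ 4) ^ 5 := by gcongr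
          _ = C₀ ^ 6 * D ^ 21 := by ring
      linarith
    have e4 : (s ^ 3)⁻¹ ≤ C₀ ^ 39 * D ^ 195 := by
      have a1 : (s ^ 3)⁻¹ = (Ct * D ^ 17) ^ 3 * (r⁻¹) ^ 36 := by
        rw [hsdef]; field_simp
      rw [a1, hri]
      calc (Ct * D ^ 17) ^ 3 * (C₀ * D ^ 4) ^ 36 ≤ (C₀ * D ^ 17) ^ 3 * (C₀ * D ^ 4) ^ 36 := by
            gcongr
        _ = C₀ ^ 39 * D ^ 195 := by ring
    calc Cl * (Cs / r ^ 4 * K⁻¹ + Cs * D / (r ^ 5 * K)) / s ^ 3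
        = Cl * (Cs / r ^ 4 * K⁻¹ + Cs * D / (r ^ 5 * K)) * (s ^ 3)⁻¹ := by rw [div_eq_mul_inv]
      _ ≤ C₀ * (2 * (C₀ ^ 6 * D ^ 21) / K) * (C₀ ^ 39 * D ^ 195) := by gcongr
      _ = 2 * (C₀ ^ 46 * D ^ 216 / K) := by ring
      _ ≤ C₀ * (C₀ ^ 46 * D ^ 216 / K) := by gcongr; linarith
      _ = C₀ ^ 47 * D ^ 216 / K := by ring

private theorem Sg_lamx {n a x : Z 2} (h : 0 < |qQ (x - a)|) : Sg (lamx n a x) n a x = 0 := by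
  unfold Sg lamx
  have : qQ (x - a) ≠ 0 := abs_pos.1 h
  field_simp
  ring

private theorem lq_bound {C₀ D ρ r' : ℝ} {n q a : Z 2} (h1000 : 1000 ≤ C₀) (hD : 1 ≤ D)
    (hρ0 : 0 < ρ) (hr'0 : 0 < r') (hr'i : r'⁻¹ = C₀ ^ 5 * D ^ 20) (hn : ‖n‖ = 1)
    (hqa : ‖q - a‖ ≤ 2 * ρ ^ 2) (hqQ : r' * ρ ^ 4 ≤ |qQ (q - a)|) :
    |lamx n a q| ≤ C₀ ^ 6 * D ^ 20 / ρ ^ 2 := by
  have hC0 : 0 < C₀ := by linarith
  have hD0 : 0 < D := by linarith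
  have hQ0 : 0 < |qQ (q - a)| := lt_of_lt_of_le (by positivity) hqQ
  have e1 : |lamx n a q| * |qQ (q - a)| = 2 * |qB n (q - a)| := by
    rw [lamx, abs_div, div_mul_cancel₀ _ hQ0.ne', abs_mul]
    norm_num
  have e2 : |qB n (q - a)| ≤ 10 * ρ ^ 2 := by
    have := abs_qB_le n (q - a)
    rw [hn, one_mul] at this
    linarith
  have e3 : |lamx n a q| * (r' * ρ ^ 4) ≤ 20 * ρ ^ 2 := by
    calc |lamx n a q| * (r' * ρ ^ 4) ≤ |lamx n a q| * |qQ (q - a)| := by gcongr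
      _ ≤ 20 * ρ ^ 2 := by rw [e1]; linarith
  rw [le_div_iff₀ (by positivity)]
  have e4 : |lamx n a q| * ρ ^ 2 = (|lamx n a q| * (r' * ρ ^ 4)) * (r'⁻¹ / ρ ^ 2) := by
    field_simp
  rw [e4, hr'i]
  calc |lamx n a q| * (r' * ρ ^ 4) * (C₀ ^ 5 * D ^ 20 / ρ ^ 2)
      ≤ 20 * ρ ^ 2 * (C₀ ^ 5 * D ^ 20 / ρ ^ 2) := by gcongr
    _ = 20 * (C₀ ^ 5 * D ^ 20) := by field_simp
    _ ≤ C₀ * (C₀ ^ 5 * D ^ 20) := by gcongr; linarith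
    _ = C₀ ^ 6 * D ^ 20 := by ring

private theorem dif_bound {C₀ D ρ r' K lx lq : ℝ} {n q a : Z 2}
    (hρ0 : 0 < ρ) (hK0 : 0 < K) (hr'0 : 0 < r') (hr'i : r'⁻¹ = C₀ ^ 5 * D ^ 20)
    (hC0 : 0 < C₀) (hD0 : 0 < D)
    (hqQ : r' * ρ ^ 4 ≤ |qQ (q - a)|) (hSq : Sg lq n a q = 0)
    (s2 : |Sg lx n a q| ≤ C₀ ^ 49 * D ^ 216 * ρ ^ 2 / K) :
    |lx - lq| ≤ C₀ ^ 54 * D ^ 236 / (K * ρ ^ 2) := by
  have s3 : (lx - lq) * qQ (q - a) = Sg lx n a q := by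
    have : Sg lx n a q - Sg lq n a q = (lx - lq) * qQ (q - a) := by
      unfold Sg; ring
    rw [hSq, sub_zero] at this
    exact this.symm
  have s4 : |lx - lq| * (r' * ρ ^ 4) ≤ C₀ ^ 49 * D ^ 216 * ρ ^ 2 / K := by
    calc |lx - lq| * (r' * ρ ^ 4) ≤ |lx - lq| * |qQ (q - a)| := by gcongr
      _ = |Sg lx n a q| := by rw [← abs_mul, s3]
      _ ≤ _ := s2
  have s5 : |lx - lq| = (|lx - lq| * (r' * ρ ^ 4)) * (r'⁻¹ / ρ ^ 4) := by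
    field_simp
  rw [s5, hr'i]
  calc |lx - lq| * (r' * ρ ^ 4) * (C₀ ^ 5 * D ^ 20 / ρ ^ 4)
      ≤ C₀ ^ 49 * D ^ 216 * ρ ^ 2 / K * (C₀ ^ 5 * D ^ 20 / ρ ^ 4) := by gcongr
    _ = C₀ ^ 54 * D ^ 236 / (K * ρ ^ 2) := by field_simp

private theorem num_small {C₀ D ρ K c : ℝ} {i j k l : ℕ} (hC1 : 1 ≤ C₀) (hD : 1 ≤ D)
    (hρ0 : 0 < ρ) (hK0 : 0 < K) (hKρ : K ≤ ρ) (hi : i ≤ k) (hj : j ≤ l)
    (hc : c = C₀ ^ i * D ^ j) :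
    c * ρ ≤ C₀ ^ k * D ^ l * ρ ^ 2 / K := by
  rw [hc, le_div_iff₀ hK0]
  have h1 : C₀ ^ i * D ^ j ≤ C₀ ^ k * D ^ l :=
    mul_le_mul (pow_le_pow_right₀ hC1 hi) (pow_le_pow_right₀ hD hj) (by positivity)
      (by positivity)
  calc C₀ ^ i * D ^ j * ρ * K ≤ C₀ ^ i * D ^ j * ρ * ρ := by gcongr
    _ = (C₀ ^ i * D ^ j) * ρ ^ 2 := by ring
    _ ≤ (C₀ ^ k * D ^ l) * ρ ^ 2 := by gcongr
    _ = _ := by ring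

private theorem mono_fr {C₀ D t : ℝ} {i j k l : ℕ} (hC1 : 1 ≤ C₀) (hD : 1 ≤ D) (ht : 0 ≤ t)
    (hi : i ≤ k) (hj : j ≤ l) : C₀ ^ i * D ^ j * t ≤ C₀ ^ k * D ^ l * t :=
  mul_le_mul_of_nonneg_right (mul_le_mul (pow_le_pow_right₀ hC1 hi) (pow_le_pow_right₀ hD hj)
    (by positivity) (by positivity)) ht

/-- the value at `q` -/
private theorem val_q {C₀ Cp D ρ K lx : ℝ} {n q a x : Z 2} {η : E 2} (h1000 : 1000 ≤ C₀)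
    (hp' : Cp ≤ C₀) (_h1p : 1 ≤ Cp)
    (SPL : ∀ (ρ D r ε lam : ℝ) (a x z n : Z 2) (η : E 2), 1 ≤ ρ → 1 ≤ D → D ≤ ρ →
      0 < r → r ≤ 1 → ‖a‖ ≤ ρ ^ 2 → ‖x‖ ≤ ρ ^ 2 → ‖z‖ ≤ ρ ^ 2 → ‖n‖ = 1 → ‖η‖ ≤ 3 →
      |lam| ≤ 1 / (r * ρ ^ 2) → ‖Lo η ρ⁻¹ (z - x)‖ ≤ D → |qB (gr lam n a x) (ll η)| ≤ ε →
      |Sg lam n a z - Sg lam n a x| ≤ Cp * (ε * ρ ^ 2 + D * ρ / r) ∧
      |qB (gr lam n a z) (ll η)| ≤ ε + Cp * D / (r * ρ ^ 2))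
    (hρ1 : 1 ≤ ρ) (hD : 1 ≤ D) (hDρ : D ≤ ρ) (hK0 : 0 < K) (hKρ : K ≤ ρ)
    (hba : ‖a‖ ≤ ρ ^ 2) (hbx : ‖x‖ ≤ ρ ^ 2) (hbq : ‖q‖ ≤ ρ ^ 2) (hn : ‖n‖ = 1) (hη : ‖η‖ ≤ 3)
    (hlx : |lx| ≤ C₀ ^ 5 * D ^ 16 / ρ ^ 2) (hLo : ‖Lo η ρ⁻¹ (q - x)‖ ≤ D)
    (hgx : |qB (gr lx n a x) (ll η)| ≤ C₀ ^ 47 * D ^ 216 / K) (hSx : Sg lx n a x = 0) :
    |Sg lx n a q| ≤ C₀ ^ 49 * D ^ 216 * ρ ^ 2 / K := by
  have hC1 : 1 ≤ C₀ := by linarith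
  have hC0 : 0 < C₀ := by linarith
  have hD0 : 0 < D := by linarith
  have hρ0 : 0 < ρ := by linarith
  have hlx' : |lx| ≤ 1 / (((C₀ ^ 5 * D ^ 16))⁻¹ * ρ ^ 2) := by
    refine hlx.trans (le_of_eq ?_)
    field_simp
  have hinv1 : (C₀ ^ 5 * D ^ 16)⁻¹ ≤ 1 := inv_le_one_of_one_le₀
    (one_le_mul_of_one_le_of_one_le (one_le_pow₀ hC1) (one_le_pow₀ hD))
  obtain ⟨s1, -⟩ := SPL ρ D ((C₀ ^ 5 * D ^ 16)⁻¹) (C₀ ^ 47 * D ^ 216 / K) lx a x q n η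
    hρ1 hD hDρ (by positivity) hinv1 hba hbx hbq hn hη hlx' hLo hgx
  rw [hSx, sub_zero] at s1
  refine s1.trans ?_
  have f1 : D * ρ / (C₀ ^ 5 * D ^ 16)⁻¹ ≤ C₀ ^ 47 * D ^ 216 * ρ ^ 2 / K := by
    rw [div_inv_eq_mul]
    have := num_small (C₀ := C₀) (D := D) (ρ := ρ) (K := K) (i := 5) (j := 17) (k := 47) (l := 216)
      (c := C₀ ^ 5 * D ^ 17) hC1 hD hρ0 hK0 hKρ (by norm_num) (by norm_num) rfl
    calc D * ρ * (C₀ ^ 5 * D ^ 16) = C₀ ^ 5 * D ^ 17 * ρ := by ring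
      _ ≤ _ := this
  have f2 : C₀ ^ 47 * D ^ 216 / K * ρ ^ 2 = C₀ ^ 47 * D ^ 216 * ρ ^ 2 / K := by ring
  calc Cp * (C₀ ^ 47 * D ^ 216 / K * ρ ^ 2 + D * ρ / (C₀ ^ 5 * D ^ 16)⁻¹)
      ≤ C₀ * (C₀ ^ 47 * D ^ 216 * ρ ^ 2 / K + C₀ ^ 47 * D ^ 216 * ρ ^ 2 / K) := by
        rw [f2]; gcongr
    _ = 2 * (C₀ ^ 48 * D ^ 216 * ρ ^ 2 / K) := by ring
    _ ≤ C₀ * (C₀ ^ 48 * D ^ 216 * ρ ^ 2 / K) := by gcongr; linarith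
    _ = _ := by ring

/-- the values at `z` -/
private theorem val_z {C₀ Cp D ρ K lx lq : ℝ} {n z a x : Z 2} {η : E 2} (h1000 : 1000 ≤ C₀)
    (hp' : Cp ≤ C₀) (_h1p : 1 ≤ Cp)
    (SPL : ∀ (ρ D r ε lam : ℝ) (a x z n : Z 2) (η : E 2), 1 ≤ ρ → 1 ≤ D → D ≤ ρ →
      0 < r → r ≤ 1 → ‖a‖ ≤ ρ ^ 2 → ‖x‖ ≤ ρ ^ 2 → ‖z‖ ≤ ρ ^ 2 → ‖n‖ = 1 → ‖η‖ ≤ 3 →
      |lam| ≤ 1 / (r * ρ ^ 2) → ‖Lo η ρ⁻¹ (z - x)‖ ≤ D → |qB (gr lam n a x) (ll η)| ≤ ε →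
      |Sg lam n a z - Sg lam n a x| ≤ Cp * (ε * ρ ^ 2 + D * ρ / r) ∧
      |qB (gr lam n a z) (ll η)| ≤ ε + Cp * D / (r * ρ ^ 2))
    (hρ1 : 1 ≤ ρ) (hD : 1 ≤ D) (hDρ : D ≤ ρ) (hK0 : 0 < K) (hKρ : K ≤ ρ)
    (hba : ‖a‖ ≤ ρ ^ 2) (hbx : ‖x‖ ≤ ρ ^ 2) (hbz : ‖z‖ ≤ ρ ^ 2) (hn : ‖n‖ = 1) (hη : ‖η‖ ≤ 3)
    (hlqb : |lq| ≤ C₀ ^ 6 * D ^ 20 / ρ ^ 2) (hLo : ‖Lo η ρ⁻¹ (z - x)‖ ≤ D)
    (hgx : |qB (gr lx n a x) (ll η)| ≤ C₀ ^ 47 * D ^ 216 / K) (hSx : Sg lx n a x = 0)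
    (hd : |lx - lq| ≤ C₀ ^ 54 * D ^ 236 / (K * ρ ^ 2)) :
    |Sg lq n a z| ≤ C₀ ^ 60 * D ^ 236 * ρ ^ 2 / K ∧
      |qB (gr lq n a z) (ll η)| ≤ C₀ ^ 60 * D ^ 236 / K := by
  have hC1 : 1 ≤ C₀ := by linarith
  have hC0 : 0 < C₀ := by linarith
  have hD0 : 0 < D := by linarith
  have hρ0 : 0 < ρ := by linarith
  have n1 : ‖x - a‖ ≤ 2 * ρ ^ 2 := by
    have := norm_sub_le x a
    linarith
  have hQup : |qQ (x - a)| ≤ 20 * ρ ^ 4 := by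
    have := abs_qB_le (x - a) (x - a)
    calc |qQ (x - a)| ≤ 5 * (‖x - a‖ * ‖x - a‖) := this
      _ ≤ 5 * ((2 * ρ ^ 2) * (2 * ρ ^ 2)) := by gcongr
      _ = 20 * ρ ^ 4 := by ring
  have u1 : |Sg lq n a x| ≤ 20 * (C₀ ^ 54 * D ^ 236 * ρ ^ 2 / K) := by
    have : Sg lq n a x = (lq - lx) * qQ (x - a) := by
      have : Sg lq n a x - Sg lx n a x = (lq - lx) * qQ (x - a) := by
        unfold Sg; ring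
      rw [hSx, sub_zero] at this
      exact this
    rw [this, abs_mul, abs_sub_comm]
    calc |lx - lq| * |qQ (x - a)|
        ≤ (C₀ ^ 54 * D ^ 236 / (K * ρ ^ 2)) * (20 * ρ ^ 4) := by gcongr
      _ = _ := by field_simp
  have u2 : |qB (gr lq n a x) (ll η)| ≤ C₀ ^ 55 * D ^ 236 / K := by
    have e1 : gr lq n a x = gr lx n a x - (2 * (lx - lq)) • (x - a) := by
      unfold gr
      rw [mul_sub, sub_smul]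
      abel
    have e2 : |qB (x - a) (ll η)| ≤ 90 * ρ ^ 2 := by
      have f1 := abs_qB_le (x - a) (ll η)
      have f2 := norm_ll_le η hη
      calc |qB (x - a) (ll η)| ≤ 5 * (‖x - a‖ * ‖ll η‖) := f1
        _ ≤ 5 * ((2 * ρ ^ 2) * 9) := by gcongr
        _ = 90 * ρ ^ 2 := by ring
    rw [e1, qB_sub_left, qB_smul_left]
    have e3 : |2 * (lx - lq) * qB (x - a) (ll η)| ≤ 180 * (C₀ ^ 54 * D ^ 236 / K) := by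
      rw [abs_mul, abs_mul, abs_two]
      calc 2 * |lx - lq| * |qB (x - a) (ll η)|
          ≤ 2 * (C₀ ^ 54 * D ^ 236 / (K * ρ ^ 2)) * (90 * ρ ^ 2) := by gcongr
        _ = _ := by field_simp; ring
    have e4 := abs_sub (qB (gr lx n a x) (ll η)) (2 * (lx - lq) * qB (x - a) (ll η))
    have e6 : C₀ ^ 47 * D ^ 216 / K ≤ C₀ ^ 54 * D ^ 236 / K := by
      rw [div_eq_mul_inv, div_eq_mul_inv]
      exact mono_fr hC1 hD (by positivity) (by norm_num) (by norm_num)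
    calc _ ≤ C₀ ^ 54 * D ^ 236 / K + 180 * (C₀ ^ 54 * D ^ 236 / K) := by
          refine e4.trans (add_le_add (hgx.trans e6) e3)
      _ = 181 * (C₀ ^ 54 * D ^ 236 / K) := by ring
      _ ≤ C₀ * (C₀ ^ 54 * D ^ 236 / K) := by gcongr; linarith
      _ = _ := by ring
  have hlq' : |lq| ≤ 1 / (((C₀ ^ 6 * D ^ 20))⁻¹ * ρ ^ 2) := by
    refine hlqb.trans (le_of_eq ?_)
    field_simp
  have hinv1 : (C₀ ^ 6 * D ^ 20)⁻¹ ≤ 1 := inv_le_one_of_one_le₀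
    (one_le_mul_of_one_le_of_one_le (one_le_pow₀ hC1) (one_le_pow₀ hD))
  obtain ⟨s1, s2⟩ := SPL ρ D ((C₀ ^ 6 * D ^ 20)⁻¹) (C₀ ^ 55 * D ^ 236 / K) lq a x z n η
    hρ1 hD hDρ (by positivity) hinv1 hba hbx hbz hn hη hlq' hLo u2
  have f1 : D * ρ / (C₀ ^ 6 * D ^ 20)⁻¹ ≤ C₀ ^ 55 * D ^ 236 * ρ ^ 2 / K := by
    rw [div_inv_eq_mul]
    have := num_small (C₀ := C₀) (D := D) (ρ := ρ) (K := K) (i := 6) (j := 21) (k := 55) (l := 236)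
      (c := C₀ ^ 6 * D ^ 21) hC1 hD hρ0 hK0 hKρ (by norm_num) (by norm_num) rfl
    calc D * ρ * (C₀ ^ 6 * D ^ 20) = C₀ ^ 6 * D ^ 21 * ρ := by ring
      _ ≤ _ := this
  have hD'0 : 0 ≤ D ^ 236 := by positivity
  have hCp4 : ∀ {t c : ℝ}, 0 ≤ t → c ≤ 1000 → c * (C₀ ^ 56 * D ^ 236 * t) ≤
      C₀ ^ 60 * D ^ 236 * t := by
    intro t c ht hc
    have h4 : c ≤ C₀ ^ 4 := by
      calc c ≤ C₀ := by linarith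
        _ = C₀ ^ 1 := (pow_one _).symm
        _ ≤ C₀ ^ 4 := pow_le_pow_right₀ hC1 (by norm_num)
    have e60 : C₀ ^ 60 * D ^ 236 * t = C₀ ^ 4 * (C₀ ^ 56 * D ^ 236 * t) := by
      rw [← mul_assoc, ← mul_assoc, ← pow_add]
    rw [e60]
    exact mul_le_mul_of_nonneg_right h4
      (mul_nonneg (mul_nonneg (pow_nonneg hC0.le _) (pow_nonneg hD0.le _)) ht)
  refine ⟨?_, ?_⟩
  · have f2 : C₀ ^ 55 * D ^ 236 / K * ρ ^ 2 = C₀ ^ 55 * D ^ 236 * ρ ^ 2 / K := by ring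
    have f3 : |Sg lq n a z - Sg lq n a x| ≤ 2 * (C₀ ^ 56 * D ^ 236 * ρ ^ 2 / K) := by
      refine s1.trans ?_
      calc Cp * (C₀ ^ 55 * D ^ 236 / K * ρ ^ 2 + D * ρ / (C₀ ^ 6 * D ^ 20)⁻¹)
          ≤ C₀ * (C₀ ^ 55 * D ^ 236 * ρ ^ 2 / K + C₀ ^ 55 * D ^ 236 * ρ ^ 2 / K) := by
            rw [f2]; gcongr
        _ = _ := by ring
    have f4 : |Sg lq n a z| ≤ |Sg lq n a z - Sg lq n a x| + |Sg lq n a x| := by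
      have := abs_add_le (Sg lq n a z - Sg lq n a x) (Sg lq n a x)
      simpa using this
    have f5 : C₀ ^ 54 * D ^ 236 * ρ ^ 2 / K ≤ C₀ ^ 56 * D ^ 236 * ρ ^ 2 / K := by
      rw [mul_div_assoc, mul_div_assoc]
      exact mono_fr hC1 hD (by positivity) (by norm_num) le_rfl
    have f6 := hCp4 (t := ρ ^ 2 / K) (c := 22) (by positivity) (by norm_num)
    have f7 : C₀ ^ 56 * D ^ 236 * ρ ^ 2 / K = C₀ ^ 56 * D ^ 236 * (ρ ^ 2 / K) := by ring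
    have f8 : C₀ ^ 60 * D ^ 236 * ρ ^ 2 / K = C₀ ^ 60 * D ^ 236 * (ρ ^ 2 / K) := by ring
    rw [f8]
    rw [f7] at f3 f5
    linarith
  · refine s2.trans ?_
    have f6 : Cp * D / ((C₀ ^ 6 * D ^ 20)⁻¹ * ρ ^ 2) ≤ C₀ ^ 56 * D ^ 236 / K := by
      have e1 : Cp * D / ((C₀ ^ 6 * D ^ 20)⁻¹ * ρ ^ 2) = Cp * D * (C₀ ^ 6 * D ^ 20) / ρ ^ 2 := by
        field_simp
      rw [e1, div_le_div_iff₀ (by positivity) hK0]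
      have e2 : K ≤ ρ ^ 2 := by nlinarith
      calc Cp * D * (C₀ ^ 6 * D ^ 20) * K ≤ C₀ * D * (C₀ ^ 6 * D ^ 20) * ρ ^ 2 := by gcongr
        _ = C₀ ^ 7 * D ^ 21 * ρ ^ 2 := by ring
        _ ≤ C₀ ^ 56 * D ^ 236 * ρ ^ 2 :=
          mono_fr hC1 hD (by positivity) (by norm_num) (by norm_num)
    have f7 : C₀ ^ 55 * D ^ 236 / K ≤ C₀ ^ 56 * D ^ 236 / K := by
      rw [div_eq_mul_inv, div_eq_mul_inv]
      exact mono_fr hC1 hD (by positivity) (by norm_num) le_rfl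
    have f9 := hCp4 (t := K⁻¹) (c := 2) (by positivity) (by norm_num)
    have f10 : C₀ ^ 56 * D ^ 236 / K = C₀ ^ 56 * D ^ 236 * K⁻¹ := by ring
    have f11 : C₀ ^ 60 * D ^ 236 / K = C₀ ^ 60 * D ^ 236 * K⁻¹ := by ring
    rw [f11]
    rw [f10] at f6 f7
    linarith

private theorem count {Cg Cq Cw C₀ D ρ r g y s : ℝ} (_h1g : 1 ≤ Cg) (_h1q : 1 ≤ Cq) (_h1w : 1 ≤ Cw)
    (hg : Cg ≤ C₀) (hq : Cq ≤ C₀) (hw : Cw ≤ C₀) (hC1 : 1 ≤ C₀) (hD : 1 ≤ D) (hρ0 : 0 < ρ)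
    (hr0 : 0 < r) (hg0 : 0 ≤ g) (hy0 : 0 ≤ y) (hs0 : 0 ≤ s) (hrC : C₀ * D ^ 4 * r = 1)
    (hG : ρ ^ 7 * r ^ 12 ≤ Cg * D ^ 12 * g) (hY : g * r ^ 2 ≤ Cq * D ^ 10 * ρ ^ 2 * y)
    (hPs : y * r ^ 12 ≤ Cw * D ^ 8 * ρ * s) : ρ ^ 4 ≤ C₀ ^ 60 * D ^ 134 * s := by
  have hC0 : 0 < C₀ := by linarith
  have hD0 : 0 < D := by linarith
  have c0 : ρ ^ 7 * r ^ 12 ≤ C₀ * D ^ 12 * g :=
    hG.trans (mul_le_mul_of_nonneg_right (mul_le_mul_of_nonneg_right hg (by positivity)) hg0)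
  have c0' : g * r ^ 2 ≤ C₀ * D ^ 10 * ρ ^ 2 * y :=
    hY.trans (mul_le_mul_of_nonneg_right (mul_le_mul_of_nonneg_right
      (mul_le_mul_of_nonneg_right hq (by positivity)) (by positivity)) hy0)
  have c0'' : y * r ^ 12 ≤ C₀ * D ^ 8 * ρ * s :=
    hPs.trans (mul_le_mul_of_nonneg_right (mul_le_mul_of_nonneg_right
      (mul_le_mul_of_nonneg_right hw (by positivity)) (by positivity)) hs0)
  have c1 : ρ ^ 7 * r ^ 12 * r ^ 2 ≤ C₀ * D ^ 12 * (C₀ * D ^ 10 * ρ ^ 2 * y) := by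
    calc ρ ^ 7 * r ^ 12 * r ^ 2 ≤ (C₀ * D ^ 12 * g) * r ^ 2 :=
          mul_le_mul_of_nonneg_right c0 (by positivity)
      _ = C₀ * D ^ 12 * (g * r ^ 2) := by ring
      _ ≤ _ := mul_le_mul_of_nonneg_left c0' (by positivity)
  have c2 : ρ ^ 7 * r ^ 12 * r ^ 2 * r ^ 12 ≤
      C₀ * D ^ 12 * (C₀ * D ^ 10 * ρ ^ 2 * (C₀ * D ^ 8 * ρ * s)) := by
    calc ρ ^ 7 * r ^ 12 * r ^ 2 * r ^ 12
        ≤ C₀ * D ^ 12 * (C₀ * D ^ 10 * ρ ^ 2 * y) * r ^ 12 :=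
          mul_le_mul_of_nonneg_right c1 (by positivity)
      _ = C₀ * D ^ 12 * (C₀ * D ^ 10 * ρ ^ 2 * (y * r ^ 12)) := by ring
      _ ≤ _ := mul_le_mul_of_nonneg_left (mul_le_mul_of_nonneg_left c0'' (by positivity))
          (by positivity)
  have c3 : ρ ^ 7 * r ^ 26 ≤ C₀ ^ 3 * D ^ 30 * ρ ^ 3 * s := by
    have e1 : ρ ^ 7 * r ^ 12 * r ^ 2 * r ^ 12 = ρ ^ 7 * r ^ 26 := by ring
    have e2 : C₀ * D ^ 12 * (C₀ * D ^ 10 * ρ ^ 2 * (C₀ * D ^ 8 * ρ * s)) =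
        C₀ ^ 3 * D ^ 30 * ρ ^ 3 * s := by ring
    rw [e1, e2] at c2
    exact c2
  have c4 : ρ ^ 4 * r ^ 26 ≤ C₀ ^ 3 * D ^ 30 * s := by
    have : ρ ^ 3 * (ρ ^ 4 * r ^ 26) ≤ ρ ^ 3 * (C₀ ^ 3 * D ^ 30 * s) := by
      have e1 : ρ ^ 3 * (ρ ^ 4 * r ^ 26) = ρ ^ 7 * r ^ 26 := by ring
      have e2 : ρ ^ 3 * (C₀ ^ 3 * D ^ 30 * s) = C₀ ^ 3 * D ^ 30 * ρ ^ 3 * s := by ring
      rw [e1, e2]
      exact c3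
    exact le_of_mul_le_mul_left this (by positivity)
  have hr26 : r ^ 26 * (C₀ ^ 26 * D ^ 104) = 1 := by
    have e1 : r ^ 26 * (C₀ ^ 26 * D ^ 104) = (C₀ * D ^ 4 * r) ^ 26 := by
      rw [mul_pow, mul_pow, ← pow_mul]; ring
    rw [e1, hrC, one_pow]
  have c5 : ρ ^ 4 ≤ C₀ ^ 29 * D ^ 134 * s := by
    calc ρ ^ 4 = ρ ^ 4 * (r ^ 26 * (C₀ ^ 26 * D ^ 104)) := by rw [hr26, mul_one]
      _ = (ρ ^ 4 * r ^ 26) * (C₀ ^ 26 * D ^ 104) := by ring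
      _ ≤ (C₀ ^ 3 * D ^ 30 * s) * (C₀ ^ 26 * D ^ 104) :=
          mul_le_mul_of_nonneg_right c4 (by positivity)
      _ = C₀ ^ 29 * D ^ 134 * s := by ring
  refine c5.trans (mul_le_mul_of_nonneg_right (mul_le_mul_of_nonneg_right
    (pow_le_pow_right₀ hC1 (by norm_num)) (by positivity)) hs0)

theorem pf_MAI (hGDP : T_GDP) (hTHR : T_THR) (hNDG : T_NDG) (hLAG : T_LAG) (hSPD : T_SPD)
    (hSPL : T_SPL) (hQFX : T_QFX) (hPST : T_PST) : T_MAI := by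
  classical
  obtain ⟨Cg, h1g, GDP⟩ := hGDP
  obtain ⟨Ct, h1t, THR⟩ := hTHR Cg h1g
  obtain ⟨Cn, h1n, NDG⟩ := hNDG
  obtain ⟨Cl, h1l, LAG⟩ := hLAG
  obtain ⟨Cs, h1s, SPD⟩ := hSPD
  obtain ⟨Cp, h1p, SPL⟩ := hSPL
  obtain ⟨Cq, h1q, QFX⟩ := hQFX
  obtain ⟨Cw, h1w, PST⟩ := hPST
  set C₀ : ℝ := Cg + Ct + Cn + Cl + Cs + Cp + Cq + Cw + 1000 with hC₀
  have hg : Cg ≤ C₀ := by rw [hC₀]; linarith
  have ht : Ct ≤ C₀ := by rw [hC₀]; linarith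
  have hn' : Cn ≤ C₀ := by rw [hC₀]; linarith
  have hl : Cl ≤ C₀ := by rw [hC₀]; linarith
  have hs : Cs ≤ C₀ := by rw [hC₀]; linarith
  have hp' : Cp ≤ C₀ := by rw [hC₀]; linarith
  have hq : Cq ≤ C₀ := by rw [hC₀]; linarith
  have hw : Cw ≤ C₀ := by rw [hC₀]; linarith
  have h1000 : 1000 ≤ C₀ := by rw [hC₀]; linarith
  clear_value C₀
  have hC1 : 1 ≤ C₀ := by linarith
  have hC0 : 0 < C₀ := by linarith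
  refine ⟨C₀ ^ 60, one_le_pow₀ hC1, ?_⟩
  intro ι ρ D K X P η I h hne hK
  have hD := h.one_le_D
  have hD0 : 0 < D := by linarith
  have hK1 : 1 ≤ K := by linarith [h.D_le_K]
  have hK0 : 0 < K := by linarith
  have hKρ := h.K_le
  have hρ1 : 1 ≤ ρ := by linarith
  have hρ0 : 0 < ρ := by linarith
  have hDρ : D ≤ ρ := by linarith [h.D_le_K]
  set r : ℝ := 1 / (C₀ * D ^ 4) with hrdef
  have hr0 : 0 < r := by rw [hrdef]; positivity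
  have hD4 : 1 ≤ D ^ 4 := one_le_pow₀ hD
  have hr1 : r ≤ 1 := by
    rw [hrdef, div_le_one (by positivity)]
    nlinarith
  have hri : r⁻¹ = C₀ * D ^ 4 := by rw [hrdef]; simp
  have hrC : C₀ * D ^ 4 * r = 1 := by rw [hrdef]; field_simp
  have hr4 : r ^ 4 * (C₀ ^ 4 * D ^ 16) = 1 := by
    have e1 : r ^ 4 * (C₀ ^ 4 * D ^ 16) = (C₀ * D ^ 4 * r) ^ 4 := by
      rw [mul_pow, mul_pow, ← pow_mul]; ring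
    rw [e1, hrC, one_pow]
  have hr12 : r ^ 12 * (C₀ ^ 12 * D ^ 48) = 1 := by
    have e1 : r ^ 12 * (C₀ ^ 12 * D ^ 48) = (C₀ * D ^ 4 * r) ^ 12 := by
      rw [mul_pow, mul_pow, ← pow_mul]; ring
    rw [e1, hrC, one_pow]
  have big : ∀ {i j : ℕ}, i ≤ 60 → j ≤ 240 → C₀ ^ i * D ^ j ≤ K := by
    intro i j hi hj
    refine le_trans ?_ hK
    exact mul_le_mul (pow_le_pow_right₀ hC1 hi) (pow_le_pow_right₀ hD hj) (by positivity)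
      (by positivity)
  have hKr : K⁻¹ ≤ r := by
    rw [inv_le_comm₀ hK0 hr0, hri]
    have := big (i := 1) (j := 4) (by norm_num) (by norm_num)
    simpa using this
  have hD5 : C₀ * D ^ 5 ≤ r ^ 4 * ρ := by
    have e1 : C₀ ^ 5 * D ^ 21 ≤ ρ := (big (by norm_num) (by norm_num)).trans hKρ
    calc C₀ * D ^ 5 = r ^ 4 * (C₀ ^ 4 * D ^ 16) * (C₀ * D ^ 5) := by rw [hr4, one_mul]
      _ = r ^ 4 * (C₀ ^ 5 * D ^ 21) := by ring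
      _ ≤ r ^ 4 * ρ := by gcongr
  have hD1 : C₀ * D ≤ r ^ 4 * ρ := by
    refine le_trans ?_ hD5
    have : D ≤ D ^ 5 := by
      calc D = D ^ 1 := (pow_one D).symm
        _ ≤ D ^ 5 := pow_le_pow_right₀ hD (by norm_num)
    gcongr
  have cD1 : ∀ {c : ℝ}, c ≤ C₀ → c * D ≤ r ^ 4 * ρ := fun hc =>
    (mul_le_mul_of_nonneg_right hc hD0.le).trans hD1
  have cD4 : ∀ {c : ℝ}, c ≤ C₀ → c * D ^ 4 * r ≤ 1 := by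
    intro c hc
    calc c * D ^ 4 * r ≤ C₀ * D ^ 4 * r := by gcongr
      _ = 1 := hrC
  have h17 : Ct * D ^ 17 ≤ r ^ 12 * K := by
    have e1 : C₀ ^ 13 * D ^ 65 ≤ K := big (by norm_num) (by norm_num)
    calc Ct * D ^ 17 ≤ C₀ * D ^ 17 := by gcongr
      _ = r ^ 12 * (C₀ ^ 12 * D ^ 48) * (C₀ * D ^ 17) := by rw [hr12, one_mul]
      _ = r ^ 12 * (C₀ ^ 13 * D ^ 65) := by ring
      _ ≤ r ^ 12 * K := by gcongr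
  obtain ⟨a, haX, hG⟩ := GDP ι ρ D K r X P η I h hne hKr (cD4 hg) (cD1 hg)
  set G := X.filter fun x => ρ ^ 3 ≤ Cg * D ^ 9 * ((Wax ρ r X P η I a x).card : ℝ) with hGdef
  have hGX : G ⊆ X := Finset.filter_subset _ _
  have hG3 : ∀ x ∈ G, ρ ^ 3 ≤ Cg * D ^ 9 * ((Wax ρ r X P η I a x).card : ℝ) := fun x hx =>
    (Finset.mem_filter.1 hx).2
  have hGne : G.Nonempty := by
    rw [Finset.nonempty_iff_ne_empty]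
    intro h0
    rw [h0] at hG
    simp only [Finset.card_empty, Nat.cast_zero, mul_zero] at hG
    have : 0 < ρ ^ 7 * r ^ 12 := by positivity
    linarith
  obtain ⟨n, hn, hna⟩ := h.h5 a haX
  have hwalk : ∀ x ∈ G, ∃ t₁ t₂ t₃ : ι × Z 2 × ι, GW ρ r X P η I a t₁.1 t₁.2.1 t₁.2.2 x ∧
      GW ρ r X P η I a t₂.1 t₂.2.1 t₂.2.2 x ∧ GW ρ r X P η I a t₃.1 t₃.2.1 t₃.2.2 x ∧
      r ^ 12 ≤ Ct * D ^ 17 * ‖η t₁.2.2 - η t₂.2.2‖ ∧ r ^ 12 ≤ Ct * D ^ 17 * ‖η t₁.2.2 - η t₃.2.2‖ ∧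
      r ^ 12 ≤ Ct * D ^ 17 * ‖η t₂.2.2 - η t₃.2.2‖ := fun x hx =>
    THR ι ρ D K r X P η I h hr0 hr1 (cD1 ht) h17 a x (hG3 x hx)
  have hQx : ∀ x ∈ G, r ^ 4 * ρ ^ 4 ≤ |qQ (x - a)| := by
    intro x hx
    obtain ⟨t₁, -, -, g₁, -⟩ := hwalk x hx
    exact (NDG ρ D r a (η t₁.1) t₁.2.1 (η t₁.2.2) x hρ1 hD hr0 hr1 (cD1 hn') (gg_of h g₁)).2 g₁.w1
  set r' : ℝ := r ^ 4 / (C₀ * D ^ 4) with hr'def
  have hr'0 : 0 < r' := by rw [hr'def]; positivity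
  have hr'i : r'⁻¹ = C₀ ^ 5 * D ^ 20 := by
    have : r'⁻¹ = (C₀ * D ^ 4) * (r⁻¹) ^ 4 := by rw [hr'def]; field_simp
    rw [this, hri]; ring
  have hr'4 : Cq * D ^ 4 * r' ≤ r ^ 4 := by
    calc Cq * D ^ 4 * r' ≤ C₀ * D ^ 4 * r' := by gcongr
      _ = r ^ 4 := by rw [hr'def]; field_simp
  have hq5 : Cq * D ^ 5 ≤ r ^ 4 * ρ := (mul_le_mul_of_nonneg_right hq (by positivity)).trans hD5
  obtain ⟨q, hqX, hqQ, hY⟩ := QFX ι ρ D K r r' X P η I h hr0 (cD4 hq) hq5 hr'0 hr'4 a haX G hGX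
    hGne hQx
  set Y := G.filter fun x => ∃ p ∈ P, I x p ∧ I q p ∧ r * ρ ^ 2 ≤ |q.2.2 - x.2.2| with hYdef
  have hYX : Y ⊆ X := (Finset.filter_subset _ _).trans hGX
  have hYp : ∀ x ∈ Y, ∃ p ∈ P, I x p ∧ I q p ∧ r * ρ ^ 2 ≤ |q.2.2 - x.2.2| := fun x hx =>
    (Finset.mem_filter.1 hx).2
  have hYG : ∀ x ∈ Y, x ∈ G := fun x hx => (Finset.mem_filter.1 hx).1
  have hPs := PST ι ρ D K r X P η I h hKr (cD4 hw) (cD1 hw) q hqX Y hYX hYp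
  set Ps := P.filter fun p => ∃ x ∈ Y, I x p with hPsdef
  -- the coefficient
  set lq := lamx n a q with hlq
  have hsph : ∀ x ∈ G, |lamx n a x| ≤ C₀ ^ 5 * D ^ 16 / ρ ^ 2 ∧
      ∀ p ∈ P, I x p → |qB (gr (lamx n a x) n a x) (ll (η p))| ≤ C₀ ^ 47 * D ^ 216 / K :=
    fun x hx => sphere h1t h1l h1s ht hl hs h1000 h hrdef LAG SPD hK (hGX hx) hn hna (hwalk x hx)
  have hba := h.ball a haX
  have hbq := h.ball q hqX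
  have nsub : ∀ z ∈ X, ‖z - a‖ ≤ 2 * ρ ^ 2 := fun z hz => by
    have := norm_sub_le z a
    linarith [h.ball z hz]
  have hlqb : |lq| ≤ C₀ ^ 6 * D ^ 20 / ρ ^ 2 :=
    lq_bound h1000 hD hρ0 hr'0 hr'i hn (nsub q hqX) hqQ
  have hdiff : ∀ x ∈ Y, |lamx n a x - lq| ≤ C₀ ^ 54 * D ^ 236 / (K * ρ ^ 2) := by
    intro x hx
    obtain ⟨p, hp, hIx, hIq, hwd⟩ := hYp x hx
    have hxG := hYG x hx
    have hxX := hYX hx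
    obtain ⟨hlx, hgx⟩ := hsph x hxG
    have hQ0 : 0 < |qQ (q - a)| := lt_of_lt_of_le (by positivity) hqQ
    have hQx0 : 0 < |qQ (x - a)| := lt_of_lt_of_le (by positivity) (hQx x hxG)
    refine dif_bound hρ0 hK0 hr'0 hr'i hC0 hD0 hqQ (Sg_lamx hQ0) ?_
    exact val_q h1000 hp' h1p SPL hρ1 hD hDρ hK0 hKρ hba (h.ball x hxX) hbq hn (h.eta p hp) hlx
      (h.h0 p hp q hqX x hxX hIq hIx) (hgx p hp hIx) (Sg_lamx hQx0)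
  refine ⟨a, haX, n, lq, Ps, Finset.filter_subset _ _, hn, ?_, ?_, ?_⟩
  · rw [le_div_iff₀ (by positivity)] at hlqb
    refine hlqb.trans ?_
    gcongr <;> first | assumption | norm_num
  · exact count h1g h1q h1w hg hq hw hC1 hD hρ0 hr0 (Nat.cast_nonneg _) (Nat.cast_nonneg _)
      (Nat.cast_nonneg _) hrC hG hY hPs
  · intro p hp z hz hIz
    obtain ⟨hpP, x, hxY, hIx⟩ := Finset.mem_filter.1 hp
    have hxG := hYG x hxY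
    have hxX := hYX hxY
    obtain ⟨hlx, hgx⟩ := hsph x hxG
    have hQx0 : 0 < |qQ (x - a)| := lt_of_lt_of_le (by positivity) (hQx x hxG)
    exact val_z h1000 hp' h1p SPL hρ1 hD hDρ hK0 hKρ hba (h.ball x hxX) (h.ball z hz) hn
      (h.eta p hpP) hlqb (h.h0 p hpP z hz x hxX hIz hIx) (hgx p hpP hIx) (Sg_lamx hQx0)
      (hdiff x hxY)

end Pool.Agent.H91.EL
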