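import Pool.Agent.H81.GT.Defs

/-!
MP_ee74d2_an, dimension 3: the statement of the hand-in below the exponent 10/3, from the form used
in the proof.
-/

set_option autoImplicit false

namespace Pool.Agent.H91.EL

open MeasureTheory Set SchwartzMap Pool.Agent.H84.BR.CD
open scoped NNReal ENNReal

/-- the statement of the hand-in from `T_FIN` -/
theorem result_of_fin
    (h : ∃ p₀ : ℝ, p₀ < 10 / 3 ∧ ∀ p : ℝ, p₀ ≤ p → Pool.Agent.H81.GT.Q1at 2 p) :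
    ∃ p₀ : ℝ, p₀ < 10 / 3 ∧ ∀ p σ : ℝ, p₀ ≤ p → σ < 1 / p →
      ∃ C : ℝ≥0, ∀ u₀ u₁ : 𝓢(EE 3, ℂ), solNorm p u₀ u₁ ≤ C * datN p σ u₀ u₁ := by
  obtain ⟨p₀, h1, h2⟩ := h
  exact ⟨p₀, h1, fun p σ hp hσ => h2 p hp σ hσ⟩

end Pool.Agent.H91.EL
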